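import Mathlib

/-!
An upper bound for the `n`-th prime.
-/

set_option autoImplicit false

namespace Pool.Agent.K7.H60.SQ

open Finset Filter

theorem pi_lower : ∀ᶠ x : ℕ in atTop, (x : ℝ) / (2 * Real.log x) ≤ (Nat.primeCounting x : ℝ) := by
  have h1 : ∀ᶠ x : ℝ in atTop, Real.log x ≤ (1 / 20) * x := by
    have := Real.isLittleO_log_id_atTop.bound (show (0 : ℝ) < 1 / 20 by norm_num)
    filter_upwards [this, eventually_ge_atTop (1 : ℝ)] with x hx hx1
    simp only [id, Real.norm_eq_abs] at hx
    rw [abs_of_nonneg (by linarith : (0 : ℝ) ≤ x)] at hx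
    exact (le_abs_self _).trans hx
  have h2 : Tendsto (fun x : ℕ => (x : ℝ) + 1) atTop atTop :=
    tendsto_natCast_atTop_atTop.atTop_add tendsto_const_nhds
  filter_upwards [h2.eventually h1, eventually_ge_atTop 3] with x hx hx3
  have hx3' : (3 : ℝ) ≤ x := by exact_mod_cast hx3
  refine le_trans ?_ (Chebyshev.pi_ge x)
  have hlog : 0 < Real.log x := Real.log_pos (by linarith)
  have h3 : (x : ℝ) / (2 * Real.log x) = (x / 2) / Real.log x := by
    field_simp
  rw [h3]
  apply div_le_div_of_nonneg_right _ hlog.le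
  have := Real.log_two_gt_d9
  nlinarith

/-- `p_n ≤ 4 n log n` for large `n` -/
theorem nth_le : ∀ᶠ n : ℕ in atTop, (Nat.nth Nat.Prime (n - 1) : ℝ) ≤ 4 * n * Real.log n := by
  have hf : Tendsto (fun n : ℕ => ⌊4 * (n : ℝ) * Real.log n⌋₊) atTop atTop := by
    apply tendsto_atTop_mono' _ _ tendsto_id
    filter_upwards [eventually_ge_atTop 3] with n hn
    apply Nat.le_floor
    have h1 : (3 : ℝ) ≤ n := by exact_mod_cast hn
    have h2 : 1 ≤ Real.log n := by
      rw [Real.le_log_iff_exp_le (by linarith)]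
      have := Real.exp_one_lt_d9
      linarith
    show ((id n : ℕ) : ℝ) ≤ _
    simp only [id]
    nlinarith
  have h1 : ∀ᶠ x : ℝ in atTop, Real.log x ≤ (1 / 16) * x := by
    have := Real.isLittleO_log_id_atTop.bound (show (0 : ℝ) < 1 / 16 by norm_num)
    filter_upwards [this, eventually_ge_atTop (1 : ℝ)] with x hx hx1
    simp only [id, Real.norm_eq_abs] at hx
    rw [abs_of_nonneg (by linarith : (0 : ℝ) ≤ x)] at hx
    exact (le_abs_self _).trans hx
  have hlog : Tendsto (fun n : ℕ => Real.log (n : ℝ)) atTop atTop :=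
    Real.tendsto_log_atTop.comp tendsto_natCast_atTop_atTop
  filter_upwards [hf.eventually pi_lower, eventually_ge_atTop 3, hlog.eventually h1,
    hlog.eventually_ge_atTop 16] with n hn hn3 hll hl16
  have hn3' : (3 : ℝ) ≤ n := by exact_mod_cast hn3
  set l := Real.log (n : ℝ) with hl
  set m : ℕ := ⌊4 * (n : ℝ) * l⌋₊ with hm
  have hm1 : (m : ℝ) ≤ 4 * n * l := Nat.floor_le (by positivity)
  have hm2 : 4 * n * l < m + 1 := Nat.lt_floor_add_one _
  have hmpos : (1 : ℝ) < m := by nlinarith
  have hlm : Real.log m ≤ 3 / 2 * l := by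
    have h2 : Real.log m ≤ Real.log (4 * n * l) := Real.log_le_log (by linarith) hm1
    rw [Real.log_mul (by positivity) (by linarith), Real.log_mul (by norm_num) (by linarith)] at h2
    have h4 : Real.log 4 ≤ 2 := by
      have : Real.log 4 = 2 * Real.log 2 := by
        rw [show (4 : ℝ) = 2 ^ 2 by norm_num, Real.log_pow]; norm_num
      have := Real.log_two_lt_d9
      linarith
    linarith
  have hlm0 : 0 < Real.log m := Real.log_pos hmpos
  have h3 : (n : ℝ) ≤ Nat.primeCounting m := by
    refine le_trans ?_ hn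
    rw [le_div_iff₀ (by positivity)]
    have h5 : (n : ℝ) * (2 * Real.log m) ≤ n * (3 * l) := by nlinarith
    nlinarith
  have h4 : n ≤ Nat.primeCounting m := by exact_mod_cast h3
  have h5 : Nat.nth Nat.Prime (n - 1) < m + 1 := by
    apply Nat.nth_lt_of_lt_count
    have : Nat.count Nat.Prime (m + 1) = Nat.primeCounting m := rfl
    omega
  have h6 : (Nat.nth Nat.Prime (n - 1) : ℝ) ≤ m := by exact_mod_cast Nat.lt_succ_iff.1 h5
  linarith

end Pool.Agent.K7.H60.SQ
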