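import Mathlib

/-!
A lower bound for the `n`-th prime.
-/

set_option autoImplicit false

namespace Pool.Agent.K7.H60.SQ

open Finset Filter

/-- `p_n ≥ n log n / 8` for large `n` -/
theorem nth_ge : ∀ᶠ n : ℕ in atTop, n * Real.log n / 8 ≤ (Nat.nth Nat.Prime (n - 1) : ℝ) := by
  have hlog : Tendsto (fun n : ℕ => Real.log (n : ℝ)) atTop atTop :=
    Real.tendsto_log_atTop.comp tendsto_natCast_atTop_atTop
  have h1 : ∀ᶠ x : ℝ in atTop, Real.log x ≤ (1 / 16) * x := by
    have := Real.isLittleO_log_id_atTop.bound (show (0 : ℝ) < 1 / 16 by norm_num)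
    filter_upwards [this, eventually_ge_atTop (1 : ℝ)] with x hx hx1
    simp only [id, Real.norm_eq_abs] at hx
    rw [abs_of_nonneg (by linarith : (0 : ℝ) ≤ x)] at hx
    exact (le_abs_self _).trans hx
  have hc : Tendsto (fun n : ℕ => (n : ℝ)) atTop atTop := tendsto_natCast_atTop_atTop
  filter_upwards [eventually_ge_atTop 3, hc.eventually h1,
    hlog.eventually_ge_atTop 16] with n hn3 hll hl16
  have hn3' : (3 : ℝ) ≤ n := by exact_mod_cast hn3
  set l := Real.log (n : ℝ) with hl
  by_contra hcon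
  push Not at hcon
  set P := Nat.nth Nat.Prime (n - 1) with hP
  have hcount : Nat.primeCounting P = n := by
    have h2 : Nat.primeCounting P = Nat.count Nat.Prime (P + 1) := rfl
    rw [h2, Nat.count_succ, hP, Nat.count_nth_of_infinite Nat.infinite_setOfPred_prime,
      if_pos (Nat.prime_nth_prime _)]
    omega
  set y : ℝ := n * l / 8 with hy
  have hy2 : 2 * (n : ℝ) ≤ y := by
    rw [hy, le_div_iff₀ (by norm_num)]
    nlinarith
  have hy1 : 1 < y := by linarith
  have h3 := Chebyshev.pi_le_log4_mul_div hy1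
  have h4 : (n : ℝ) ≤ Nat.primeCounting ⌊y⌋₊ := by
    have h5 : P ≤ ⌊y⌋₊ := Nat.le_floor hcon.le
    have h6 := Nat.monotone_primeCounting h5
    rw [hcount] at h6
    exact_mod_cast h6
  have h5 : Real.log (Real.sqrt y) = Real.log y / 2 := Real.log_sqrt (by linarith)
  rw [h5] at h3
  have h6 : l ≤ Real.log y := Real.log_le_log (by linarith) (by linarith)
  have h7 : Real.log 4 ≤ 3 / 2 := by
    have : Real.log 4 = 2 * Real.log 2 := by
      rw [show (4 : ℝ) = 2 ^ 2 by norm_num, Real.log_pow]; norm_num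
    have := Real.log_two_lt_d9
    linarith
  have h8 : Real.log 4 * y / (Real.log y / 2) ≤ 3 / 8 * n := by
    rw [div_le_iff₀ (by linarith)]
    have e1 : Real.log 4 * y ≤ 3 / 2 * y := mul_le_mul_of_nonneg_right h7 (by linarith)
    have e2 : 3 / 8 * (n : ℝ) * (l / 2) ≤ 3 / 8 * n * (Real.log y / 2) := by
      apply mul_le_mul_of_nonneg_left _ (by positivity)
      linarith
    have e3 : 3 / 2 * y = 3 / 8 * (n : ℝ) * (l / 2) := by rw [hy]; ring
    linarith
  have h9 : Real.sqrt y ≤ n / 2 := by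
    rw [Real.sqrt_le_left (by positivity)]
    rw [hy]
    nlinarith
  linarith

end Pool.Agent.K7.H60.SQ
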