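import Pool.Agent.K7.H60.SQ.Ru
import Pool.Agent.K7.H60.TL.RA

/-!
Long runs of composite values in almost all sampled blocks.
-/

set_option autoImplicit false
set_option linter.unusedSectionVars false

namespace Pool.Agent.K7.H60.SQ

open Finset Filter Pool.Agent.H256R2.SC Pool.Agent.K7.H60.TL

open scoped Classical

theorem exp_card_le_prod (T : Finset ℕ) (h : ∀ p ∈ T, 3 ≤ p) :
    Real.exp (T.card : ℝ) ≤ ((∏ p ∈ T, p : ℕ) : ℝ) := by
  have h1 : Real.exp (T.card : ℝ) = ∏ p ∈ T, Real.exp 1 := by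
    rw [Finset.prod_const, ← Real.exp_nat_mul, mul_one]
  rw [h1]
  push_cast
  apply Finset.prod_le_prod
  · intro i _; exact (Real.exp_pos _).le
  · intro i hi
    have h2 := Real.exp_one_lt_d9
    have h3 : (3 : ℝ) ≤ i := by exact_mod_cast h i hi
    linarith

/-- the number of large prime factors -/
theorem card_large_primes (m : ℕ) (hm : 1 ≤ m) (w : ℝ) (hw : 3 ≤ w) :
    ((m.primeFactors.filter (fun p : ℕ => w < (p : ℝ))).card : ℝ) ≤ Real.log m := by
  have hm0 : (0 : ℝ) < m := by exact_mod_cast hm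
  rw [Real.le_log_iff_exp_le hm0]
  refine (exp_card_le_prod _ ?_).trans ?_
  · intro p hp
    rw [mem_filter] at hp
    have : (3 : ℝ) < p := by linarith [hp.2]
    exact_mod_cast this.le
  · have h1 : (∏ p ∈ m.primeFactors.filter (fun p : ℕ => w < (p : ℝ)), p) ∣ ∏ p ∈ m.primeFactors, p :=
      Finset.prod_dvd_prod_of_subset _ _ _ (filter_subset _ _)
    have h2 := h1.trans (Nat.prod_primeFactors_dvd m)
    exact_mod_cast Nat.le_of_dvd (by omega) h2


theorem mertens_coprime : ∃ CM : ℝ, 0 ≤ CM ∧ ∀ H : ℕ, 3 ≤ H → ∀ q0 : ℕ, 1 ≤ q0 →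
    (Nat.totient q0 : ℝ) / q0 * ∏ p ∈ (Icc 1 H).filter (fun p => p.Prime ∧ ¬ p ∣ q0),
      (1 - 1 / (p : ℝ)) ≤ Real.exp CM / Real.log H := by
  obtain ⟨CM, hCM, hmert⟩ := Pool.Agent.H256R2.SC.G3.mertens_prod
  refine ⟨CM, hCM, fun H hH q0 hq0 => ?_⟩
  set F := (Icc 1 H).filter (fun p => p.Prime ∧ p ∣ q0) with hF
  have h1 := hmert H hH F (fun p hp => (mem_filter.1 hp).2.1)
  have h2 : (Icc 1 H).filter Nat.Prime \ F = (Icc 1 H).filter (fun p => p.Prime ∧ ¬ p ∣ q0) := by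
    ext p
    rw [Finset.mem_sdiff, hF, mem_filter, mem_filter, mem_filter]
    tauto
  rw [h2] at h1
  have hpos : ∀ p : ℕ, p.Prime → 0 ≤ 1 - 1 / (p : ℝ) ∧ 1 - 1 / (p : ℝ) ≤ 1 := by
    intro p hp
    have h3 : (1 : ℝ) ≤ p := by exact_mod_cast hp.one_lt.le
    have h4 : 1 / (p : ℝ) ≤ 1 := by rw [div_le_one (by linarith)]; exact h3
    have h5 : 0 ≤ 1 / (p : ℝ) := by positivity
    constructor <;> linarith
  have hprod0 : 0 ≤ ∏ p ∈ (Icc 1 H).filter (fun p => p.Prime ∧ ¬ p ∣ q0), (1 - 1 / (p : ℝ)) :=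
    Finset.prod_nonneg fun p hp => (hpos p (mem_filter.1 hp).2.1).1
  have h3 : (Nat.totient q0 : ℝ) / q0 = ∏ p ∈ q0.primeFactors, (1 - 1 / (p : ℝ)) := by
    have h4 := Nat.totient_eq_mul_prod_factors q0
    have h5 : (Nat.totient q0 : ℝ) = q0 * ∏ p ∈ q0.primeFactors, (1 - ((p : ℝ))⁻¹) := by
      have h6 : ((Nat.totient q0 : ℚ) : ℝ) = ((q0 * ∏ p ∈ q0.primeFactors, (1 - ((p : ℚ))⁻¹) : ℚ) : ℝ) := by
        rw [h4]
      push_cast at h6
      exact h6
    rw [h5]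
    have hq : (q0 : ℝ) ≠ 0 := by
      have : (1 : ℝ) ≤ q0 := by exact_mod_cast hq0
      linarith
    rw [mul_div_assoc, mul_comm, div_mul_cancel₀ _ hq]
    apply prod_congr rfl
    intro p _
    rw [one_div]
  have h4 : (Nat.totient q0 : ℝ) / q0 ≤ ∏ p ∈ F, (1 - 1 / (p : ℝ)) := by
    rw [h3]
    have hsub : F ⊆ q0.primeFactors := by
      intro p hp
      rw [hF, mem_filter] at hp
      rw [Nat.mem_primeFactors]
      exact ⟨hp.2.1, hp.2.2, by omega⟩
    rw [← prod_sdiff hsub]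
    have h5 : ∏ p ∈ q0.primeFactors \ F, (1 - 1 / (p : ℝ)) ≤ 1 := by
      apply Finset.prod_le_one
      · intro p hp
        exact (hpos p (Nat.prime_of_mem_primeFactors (Finset.mem_sdiff.1 hp).1)).1
      · intro p hp
        exact (hpos p (Nat.prime_of_mem_primeFactors (Finset.mem_sdiff.1 hp).1)).2
    have h6 : 0 ≤ ∏ p ∈ F, (1 - 1 / (p : ℝ)) :=
      Finset.prod_nonneg fun p hp => (hpos p (mem_filter.1 hp).2.1).1
    calc _ ≤ 1 * ∏ p ∈ F, (1 - 1 / (p : ℝ)) := mul_le_mul_of_nonneg_right h5 h6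
      _ = _ := one_mul _
  calc _ ≤ (∏ p ∈ F, (1 - 1 / (p : ℝ))) * ∏ p ∈ (Icc 1 H).filter (fun p => p.Prime ∧ ¬ p ∣ q0),
      (1 - 1 / (p : ℝ)) := mul_le_mul_of_nonneg_right h4 hprod0
    _ = _ := mul_comm _ _
    _ ≤ _ := h1

theorem blocksG (θ : ℝ) (hθ : 0 < θ) (hθ1 : θ < 1) (A : ℕ) : ∃ c : ℝ, 0 < c ∧ c ≤ 1 ∧
    ∃ L₀ : ℝ, 1 ≤ L₀ ∧ ∀ L : ℝ, L₀ ≤ L → ∀ q0 r q J0 Y N : ℕ, 1 ≤ q0 → 1 ≤ q →
      Real.log ((q * q0 : ℕ) : ℝ) ≤ L ^ 9 → Real.exp L ≤ J0 → Y ≤ q →
      Real.exp (L ^ θ) ≤ Y → (Y : ℝ) ≤ Real.exp (L / 2) →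
      (N : ℝ) ≤ c * ((Nat.totient q0 : ℝ) / q0) * L * Real.log L →
      (((Ico J0 (2 * J0)).filter (fun j => ¬ ∃ n, q * j ≤ n ∧ n < q * j + Y ∧
        ∀ k ∈ Icc 1 N, ¬ (q0 * (n + k) + r).Prime)).card : ℝ) ≤ J0 / L ^ A := by
  obtain ⟨c, C5, C6, hc, hC5, hC6, L₁, hL₁1, hL₁⟩ := runsG (θ / 2) (by positivity) A
  obtain ⟨CM, hCM, hmert⟩ := mertens_coprime
  set c₁ : ℝ := min 1 (c * θ / (4 * Real.exp CM)) with hc₁
  have hc₁0 : 0 < c₁ := lt_min one_pos (by positivity)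
  have hc₁1 : c₁ ≤ 1 := min_le_left _ _
  have hc₁2 : c₁ ≤ c * θ / (4 * Real.exp CM) := min_le_right _ _
  have hev : ∀ᶠ L : ℝ in atTop, (10 ≤ L ∧ 2 ≤ L ^ (θ / 4) ∧
      C6 * Real.log L ≤ L ^ (1 - θ / 2) ∧ (C5 + 8) * Real.log L ≤ L ^ (θ / 2) ∧
      4 ≤ L ^ (1 - θ) ∧ (2 * ((A : ℝ) + 10)) * Real.log L ≤ L ^ (1 / 2 : ℝ) ∧ 1 ≤ Real.log L ∧
      3 ≤ L ^ (θ / 2)) := by
    refine (eventually_ge_atTop _).and ((ev_rpow_ge 2 (θ / 4) (by positivity)).and
      ((ev_log_rpow C6 (1 - θ / 2) (by linarith)).and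
      ((ev_log_rpow (C5 + 8) (θ / 2) (by positivity)).and
      ((ev_rpow_ge 4 (1 - θ) (by linarith)).and
      ((ev_log_rpow (2 * ((A : ℝ) + 10)) (1 / 2) (by norm_num)).and
      ((Real.tendsto_log_atTop.eventually_ge_atTop 1).and
      (ev_rpow_ge 3 (θ / 2) (by positivity))))))))
  obtain ⟨L₀, hL₀⟩ := eventually_atTop.1 hev
  refine ⟨c₁, hc₁0, hc₁1, max L₁ (max L₀ 1), (le_max_right _ _).trans (le_max_right _ _), ?_⟩
  intro L hL q0 r q J0 Y N hq0 hq hlq hJL hYq hYL hYL2 hN1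
  have hX1 : L₁ ≤ L := (le_max_left _ _).trans hL
  have hLL : L₀ ≤ L := (le_max_left _ _).trans ((le_max_right _ _).trans hL)
  obtain ⟨f1, f2, f3, f4, f5, f6, f7, f8⟩ := hL₀ L hLL
  set l : ℝ := Real.log L with hl
  have hLpos : 0 < L := by linarith
  have hl0 : 0 < l := by linarith
  have hlL : l ≤ L := by
    have := Real.log_le_sub_one_of_pos hLpos
    linarith
  have hφ1 : (Nat.totient q0 : ℝ) / q0 ≤ 1 := by
    rw [div_le_one (by exact_mod_cast hq0)]
    exact_mod_cast Nat.totient_le q0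
  have hφ0 : 0 ≤ (Nat.totient q0 : ℝ) / q0 := by positivity
  -- the primes
  set H : ℕ := ⌊L ^ (θ / 2)⌋₊ with hH
  have hH1 : (H : ℝ) ≤ L ^ (θ / 2) := Nat.floor_le (by positivity)
  have hH2 : L ^ (θ / 2) < H + 1 := Nat.lt_floor_add_one _
  have hsq : L ^ (θ / 2) = L ^ (θ / 4) * L ^ (θ / 4) := by
    rw [← Real.rpow_add hLpos]; congr 1; ring
  have hH3 : L ^ (θ / 4) ≤ H := by nlinarith
  have hH4 : 3 ≤ H := Nat.le_floor (by exact_mod_cast f8)
  have hlogH : θ / 4 * l ≤ Real.log H := by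
    rw [hl, ← Real.log_rpow hLpos]
    exact Real.log_le_log (by positivity) hH3
  have hlogH0 : 0 < Real.log H := lt_of_lt_of_le (by positivity) hlogH
  have hHL : L ^ (θ / 2) ≤ L := by
    calc L ^ (θ / 2) ≤ L ^ (1 : ℝ) := Real.rpow_le_rpow_of_exponent_le (by linarith) (by linarith)
      _ = L := Real.rpow_one L
  set P0 : Finset ℕ := (Icc 1 H).filter (fun p => p.Prime ∧ ¬ p ∣ q0) with hP0
  have hNL : (N : ℝ) ≤ L ^ 2 := by
    calc (N : ℝ) ≤ c₁ * ((Nat.totient q0 : ℝ) / q0) * L * l := hN1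
      _ ≤ 1 * L * L := by
          apply mul_le_mul _ hlL hl0.le (by positivity)
          apply mul_le_mul_of_nonneg_right _ hLpos.le
          nlinarith
      _ = L ^ 2 := by ring
  -- survivors
  obtain ⟨e, -, he⟩ := greedy_all P0 (fun p hp => (mem_filter.1 hp).2.1) (Icc 1 N)
  have hprod := hmert H hH4 q0 hq0
  have hprod0 : 0 ≤ ∏ p ∈ P0, (1 - 1 / (p : ℝ)) := by
    apply Finset.prod_nonneg
    intro p hp
    have h1 : (1 : ℝ) ≤ p := by exact_mod_cast (mem_filter.1 hp).2.1.one_lt.le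
    have : 1 / (p : ℝ) ≤ 1 := by rw [div_le_one (by linarith)]; exact h1
    linarith
  have hcard : (((Icc 1 N).filter (fun k => ∀ p ∈ P0, ¬ k ≡ e p [MOD p])).card : ℝ) ≤
      c * L := by
    refine he.trans ?_
    rw [Nat.card_Icc, Nat.add_sub_cancel]
    calc (N : ℝ) * ∏ p ∈ P0, (1 - 1 / (p : ℝ)) ≤
          (c₁ * ((Nat.totient q0 : ℝ) / q0) * L * l) * ∏ p ∈ P0, (1 - 1 / (p : ℝ)) :=
          mul_le_mul_of_nonneg_right hN1 hprod0
      _ = (c₁ * L * l) * ((Nat.totient q0 : ℝ) / q0 * ∏ p ∈ P0, (1 - 1 / (p : ℝ))) := by ring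
      _ ≤ (c₁ * L * l) * (Real.exp CM / (θ / 4 * l)) := by
          apply mul_le_mul_of_nonneg_left _ (by positivity)
          refine hprod.trans ?_
          exact div_le_div_of_nonneg_left (Real.exp_pos _).le (by positivity) hlogH
      _ = c₁ * (4 * Real.exp CM / θ) * L := by field_simp
      _ ≤ (c * θ / (4 * Real.exp CM)) * (4 * Real.exp CM / θ) * L := by
          apply mul_le_mul_of_nonneg_right _ hLpos.le
          exact mul_le_mul_of_nonneg_right hc₁2 (by positivity)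
      _ = c * L := by field_simp
  have hθθ : L ^ θ = L ^ (θ / 2) * L ^ (θ / 2) := by
    rw [← Real.rpow_add hLpos]; congr 1; ring
  have hexp1 : (C5 + 8) * l * L ^ (θ / 2) ≤ L ^ θ := by
    rw [hθθ]
    exact mul_le_mul_of_nonneg_right f4 (by positivity)
  have hN3 : (N : ℝ) + 1 ≤ Real.exp (3 * l) := by
    have h1 : Real.exp (3 * l) = L * L ^ 2 := by
      have h2 : Real.exp (3 * l) = L ^ 3 := by
        rw [hl, mul_comm, Real.exp_mul, Real.exp_log hLpos]
        norm_num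
      rw [h2]; ring
    rw [h1]
    have h3 : 10 * L ^ 2 ≤ L * L ^ 2 := mul_le_mul_of_nonneg_right f1 (sq_nonneg L)
    have h4 : 1 ≤ L ^ 2 := one_le_pow₀ (by linarith)
    linarith
  have hlθ : l ≤ l * L ^ (θ / 2) := le_mul_of_one_le_right hl0.le (by linarith)
  have hθ0 : 0 ≤ L ^ (θ / 2) := by positivity
  have hlθ2 : L ^ (θ / 2) ≤ l * L ^ (θ / 2) := le_mul_of_one_le_left hθ0 f7
  have hLA : ∀ j : ℕ, 3 ≤ j → Real.exp (3 * l) ≤ L ^ j := by
    intro j hj
    have h1 : Real.exp (3 * l) = L ^ 3 := by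
      rw [hl, mul_comm, Real.exp_mul, Real.exp_log hLpos]
      norm_num
    rw [h1]
    exact pow_le_pow_right₀ (by linarith) hj
  have hWexp : ((∏ p ∈ P0, p : ℕ) : ℝ) * (N + 1) ≤ Real.exp (5 * (l * L ^ (θ / 2))) := by
    have h2 : ((∏ p ∈ P0, p : ℕ) : ℝ) ≤ Real.exp (2 * (l * L ^ (θ / 2))) := by
      have h0 : (∏ p ∈ P0, p) ∣ ∏ p ∈ (Icc 1 H).filter Nat.Prime, p := by
        apply Finset.prod_dvd_prod_of_subset
        intro p hp
        rw [hP0, mem_filter] at hp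
        rw [mem_filter]
        exact ⟨hp.1, hp.2.1⟩
      have h1 : (∏ p ∈ P0, p) ≤ ∏ p ∈ (Icc 1 H).filter Nat.Prime, p :=
        Nat.le_of_dvd (Finset.prod_pos fun p hp => (mem_filter.1 hp).2.pos) h0
      refine le_trans (by exact_mod_cast h1) ((primorial_prod H).trans (Real.exp_le_exp.mpr ?_))
      linarith
    have h3 : (N : ℝ) + 1 ≤ Real.exp (3 * (l * L ^ (θ / 2))) := by
      refine hN3.trans (Real.exp_le_exp.mpr ?_)
      linarith
    calc ((∏ p ∈ P0, p : ℕ) : ℝ) * (N + 1) ≤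
          Real.exp (2 * (l * L ^ (θ / 2))) * Real.exp (3 * (l * L ^ (θ / 2))) :=
          mul_le_mul h2 h3 (by positivity) (Real.exp_pos _).le
      _ = _ := by rw [← Real.exp_add]; congr 1; ring
  have hL4 : L ^ θ ≤ L / 4 := by
    have h2 : L = L ^ θ * L ^ (1 - θ) := by
      rw [← Real.rpow_add hLpos]
      rw [show θ + (1 - θ) = 1 by ring, Real.rpow_one]
    have h3 : L ^ θ * 4 ≤ L ^ θ * L ^ (1 - θ) := mul_le_mul_of_nonneg_left f5 (by positivity)
    linarith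
  have hlθ5 : 5 * (l * L ^ (θ / 2)) ≤ L ^ θ := by
    have : 0 ≤ C5 * (l * L ^ (θ / 2)) := by positivity
    nlinarith
  have hJ0 : 1 ≤ J0 := by
    have h1 : (0 : ℝ) < J0 := (Real.exp_pos _).trans_le hJL
    exact_mod_cast h1
  have hwbig : 3 ≤ L ^ (A + 10) := by
    have : L ≤ L ^ (A + 10) := le_self_pow₀ (by linarith) (by omega)
    linarith
  refine hL₁ L hX1 P0 e q0 r N Y q J0 (L ^ (1 - θ / 2)) ?_ hq0 hq hJ0 hYq
    (hN3.trans (hLA _ (by omega))) hcard ?_ f3 le_rfl ?_ hYL2 ?_ ?_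
  · intro p hp
    have hp1 := (mem_filter.1 hp)
    refine ⟨hp1.2.1, hp1.2.2, ?_⟩
    have h1 : (p : ℝ) ≤ H := by exact_mod_cast (mem_Icc.1 hp1.1).2
    calc (p : ℝ) ≤ L := by linarith
      _ ≤ L ^ (A + 10) := le_self_pow₀ (by linarith) (by omega)
  · have h1 := card_large_primes (q * q0) (Nat.mul_pos hq hq0) (L ^ (A + 10)) hwbig
    have h2 : 2 * L ^ 9 ≤ L ^ (A + 10) := by
      calc 2 * L ^ 9 ≤ L * L ^ 9 := mul_le_mul_of_nonneg_right (by linarith) (by positivity)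
        _ = L ^ 10 := by ring
        _ ≤ L ^ (A + 10) := pow_le_pow_right₀ (by linarith) (by omega)
    linarith
  · refine le_trans ?_ hYL
    have h1 : L / L ^ (1 - θ / 2) = L ^ (θ / 2) := by
      rw [div_eq_iff (by positivity), ← Real.rpow_add hLpos]
      rw [show θ / 2 + (1 - θ / 2) = 1 by ring, Real.rpow_one]
    rw [h1]
    calc ((∏ p ∈ P0, p : ℕ) : ℝ) * (N + 1) * Real.exp (C5 * l * L ^ (θ / 2)) ≤
          Real.exp (5 * (l * L ^ (θ / 2))) * Real.exp (C5 * l * L ^ (θ / 2)) :=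
          mul_le_mul_of_nonneg_right hWexp (Real.exp_pos _).le
      _ = Real.exp ((C5 + 5) * (l * L ^ (θ / 2))) := by
          rw [← Real.exp_add]; congr 1; ring
      _ ≤ _ := by
          apply Real.exp_le_exp.mpr
          have : 0 ≤ l * L ^ (θ / 2) := by positivity
          nlinarith
  · refine le_trans ?_ hJL
    calc ((∏ p ∈ P0, p : ℕ) : ℝ) * (N + 1) * Real.exp (L / 2) ≤
          Real.exp (5 * (l * L ^ (θ / 2))) * Real.exp (L / 2) :=
          mul_le_mul_of_nonneg_right hWexp (Real.exp_pos _).le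
      _ = Real.exp (5 * (l * L ^ (θ / 2)) + L / 2) := by rw [Real.exp_add]
      _ ≤ Real.exp L := by
          apply Real.exp_le_exp.mpr
          linarith
  · have h1 : L ^ (A + 10) = Real.exp (((A : ℝ) + 10) * l) := by
      rw [hl, mul_comm, Real.exp_mul, Real.exp_log hLpos]
      rw [show (A : ℝ) + 10 = ((A + 10 : ℕ) : ℝ) by push_cast; ring, Real.rpow_natCast]
    rw [h1]
    apply Real.exp_lt_exp.mpr
    have h2 : L ^ (1 / 2 : ℝ) < L := by
      calc L ^ (1 / 2 : ℝ) < L ^ (1 : ℝ) := Real.rpow_lt_rpow_of_exponent_lt (by linarith) (by norm_num)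
        _ = L := Real.rpow_one L
    linarith

/-- from dyadic blocks to an initial segment -/
theorem dyadic_seg (bad : ℕ → Prop) [DecidablePred bad] (T : ℕ) (ε : ℝ) (hε : 0 ≤ ε) (hT : 3 ≤ T) (K : ℕ)
    (h : ∀ J : ℕ, T ≤ J → J ≤ K → (((Ico J (2 * J)).filter bad).card : ℝ) ≤ ε * J) :
    (((range K).filter bad).card : ℝ) ≤ 2 * T + 2 * ε * K := by
  have key : ∀ K' : ℕ, K' ≤ K → (((range K').filter bad).card : ℝ) ≤ 2 * T + 2 * ε * K' := by
    intro X
    induction X using Nat.strong_induction_on with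
    | _ X ih =>
      intro hXK
      by_cases hX2 : X ≤ 2 * T
      · have h1 : (((range X).filter bad).card : ℝ) ≤ X := by
          have := card_filter_le (range X) bad
          rw [card_range] at this
          exact_mod_cast this
        have h2 : (X : ℝ) ≤ 2 * T := by exact_mod_cast hX2
        have h3 : 0 ≤ 2 * ε * X := by positivity
        linarith
      · push Not at hX2
        set Z : ℕ := (X + 1) / 2 with hZ
        have hZT : T ≤ Z := by omega
        have hZX : Z < X := by omega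
        have hsub : (range X).filter bad ⊆
            (range Z).filter bad ∪ (Ico Z (2 * Z)).filter bad := by
          intro x hx
          rw [mem_filter, mem_range] at hx
          rw [mem_union, mem_filter, mem_filter, mem_range, mem_Ico]
          by_cases hxZ : x < Z
          · exact Or.inl ⟨hxZ, hx.2⟩
          · exact Or.inr ⟨⟨by omega, by omega⟩, hx.2⟩
        have h1 := ih Z hZX (by omega)
        have h2 := h Z hZT (by omega)
        have h3 : (((range X).filter bad).card : ℝ) ≤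
            (((range Z).filter bad).card : ℝ) + (((Ico Z (2 * Z)).filter bad).card : ℝ) := by
          exact_mod_cast (card_le_card hsub).trans (card_union_le _ _)
        have hZ3 : 3 * (Z : ℝ) ≤ 2 * X := by
          have : 3 * Z ≤ 2 * X := by omega
          exact_mod_cast this
        nlinarith
  exact key K le_rfl

end Pool.Agent.K7.H60.SQ
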