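import Pool.Agent.K7.H60.TL.NTc

/-!
Sampling: almost all blocks `[q j, q j + Y)` contain an integer of the class `b` modulo `W` at which
all colours are hit.
-/

set_option autoImplicit false

namespace Pool.Agent.K7.H60.SQ

open Finset Pool.Agent.H256R2.SC Pool.Agent.K7.H60.TL

open scoped Classical

/-- integers of a class in an interval -/
theorem count_Ico (a y W b : ℕ) (hb : b < W) :
    |(((Ico a (a + y)).filter (fun n => n % W = b)).card : ℝ) - (y : ℝ) / W| ≤ 1 := by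
  have hW : 1 ≤ W := by omega
  have h1 := count_ap ((a : ℤ) - 1) ((a : ℤ) + y - 1) (by omega) W hW b
  have h2 : ((Ico a (a + y)).filter (fun n => n % W = b)).card =
      ((Ioc ((a : ℤ) - 1) ((a : ℤ) + y - 1)).filter (fun x => (W : ℤ) ∣ x - b)).card := by
    refine card_bij (fun n _ => (n : ℤ)) ?_ ?_ ?_
    · intro n hn
      rw [mem_filter, mem_Ico] at hn
      rw [mem_filter, mem_Ioc]
      refine ⟨by omega, ?_⟩
      have h3 : b ≡ n [MOD W] := by
        unfold Nat.ModEq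
        rw [hn.2, Nat.mod_eq_of_lt hb]
      exact (Nat.modEq_iff_dvd.1 h3)
    · intro a _ b _ hab
      exact_mod_cast hab
    · intro x hx
      rw [mem_filter, mem_Ioc] at hx
      have h3 : ((x.toNat : ℕ) : ℤ) = x := Int.toNat_of_nonneg (by omega)
      refine ⟨x.toNat, ?_, h3⟩
      rw [mem_filter, mem_Ico]
      refine ⟨by omega, ?_⟩
      have h4 : b ≡ x.toNat [MOD W] := Nat.modEq_iff_dvd.2 (by rw [h3]; exact hx.2)
      unfold Nat.ModEq at h4
      rw [Nat.mod_eq_of_lt hb] at h4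
      exact h4.symm
  rw [h2]
  have h3 : (((a : ℤ) + y - 1 : ℤ) : ℝ) - (((a : ℤ) - 1 : ℤ) : ℝ) = y := by
    push_cast
    ring
  rw [h3] at h1
  exact h1

/-- the classes modulo `lcm (q, W)` met by the blocks -/
noncomputable def Tc (q W b y : ℕ) : Finset ℕ :=
  (range (Nat.lcm q W)).filter (fun a => a % W = b ∧ a % q < y)

theorem div_mod_block {q j a y : ℕ} (hq : 1 ≤ q) (hy : y ≤ q) (h1 : q * j ≤ a) (h2 : a < q * j + y) :
    a / q = j ∧ a % q = a - q * j := by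
  obtain ⟨r, rfl⟩ := Nat.exists_eq_add_of_le h1
  have hr : r < q := by omega
  constructor
  · rw [Nat.mul_add_div (by omega), Nat.div_eq_of_lt hr, add_zero]
  · rw [Nat.mul_add_mod, Nat.mod_eq_of_lt hr, Nat.add_sub_cancel_left]

theorem Tc_card (q W b y : ℕ) (hq : 1 ≤ q) (hb : b < W) (hy : y ≤ q) :
    |((Tc q W b y).card : ℝ) - ((Nat.lcm q W / q : ℕ) : ℝ) * ((y : ℝ) / W)| ≤
      ((Nat.lcm q W / q : ℕ) : ℝ) := by
  set m := Nat.lcm q W / q with hm
  have hM : Nat.lcm q W = q * m := (Nat.mul_div_cancel' (Nat.dvd_lcm_left q W)).symm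
  have h1 : (Tc q W b y).card = ∑ j ∈ range m, ((Ico (q * j) (q * j + y)).filter
      (fun n => n % W = b)).card := by
    rw [Finset.card_eq_sum_card_fiberwise (f := fun a => a / q) (t := range m)]
    · apply sum_congr rfl
      intro j hj
      congr 1
      ext a
      unfold Tc
      rw [mem_filter, mem_filter, mem_filter, mem_range, mem_Ico, hM]
      rw [mem_range] at hj
      constructor
      · rintro ⟨⟨h1, h2, h3⟩, h4⟩
        have h5 := Nat.div_add_mod a q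
        rw [h4] at h5
        exact ⟨⟨by omega, by omega⟩, h2⟩
      · rintro ⟨⟨h1, h2⟩, h3⟩
        obtain ⟨h4, h5⟩ := div_mod_block hq hy h1 h2
        have h6 : q * (j + 1) ≤ q * m := Nat.mul_le_mul_left q hj
        rw [Nat.mul_add, mul_one] at h6
        exact ⟨⟨by omega, h3, by omega⟩, h4⟩
    · intro a ha
      unfold Tc at ha
      rw [coe_filter, Set.mem_ofPred_eq, mem_range, hM] at ha
      rw [coe_range, Set.mem_Iio]
      exact Nat.div_lt_of_lt_mul ha.1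
  have h2 : |((∑ j ∈ range m, ((Ico (q * j) (q * j + y)).filter
      (fun n => n % W = b)).card : ℕ) : ℝ) - ∑ _j ∈ range m, (y : ℝ) / W| ≤ ∑ _j ∈ range m, (1 : ℝ) := by
    push_cast
    rw [← sum_sub_distrib]
    refine (abs_sum_le_sum_abs _ _).trans (sum_le_sum fun j _ => ?_)
    exact count_Ico (q * j) y W b hb
  rw [sum_const, card_range, nsmul_eq_mul, sum_const, card_range, nsmul_eq_mul, mul_one, ← h1] at h2
  exact h2

/-- the integers of the blocks -/
noncomputable def Bl (q J0 W b y : ℕ) : Finset ℕ :=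
  (Ico (q * J0) (2 * (q * J0))).filter (fun n => n % W = b ∧ n % q < y)

theorem sum_Bl (q J0 W b y : ℕ) (hq : 1 ≤ q) (hW : 1 ≤ W) (G : ℕ → ℝ) :
    ∑ n ∈ Bl q J0 W b y, G n = ∑ a ∈ Tc q W b y, ∑ n ∈ Sx (q * J0) (Nat.lcm q W) a, G n := by
  have hM0 : 0 < Nat.lcm q W := Nat.lcm_pos hq hW
  rw [← sum_fiberwise_of_maps_to (s := Bl q J0 W b y) (t := Tc q W b y)
    (g := fun n => n % Nat.lcm q W)]
  · apply sum_congr rfl
    intro a ha
    apply sum_congr _ (fun _ _ => rfl)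
    ext n
    unfold Bl Sx
    unfold Tc at ha
    rw [mem_filter, mem_range] at ha
    rw [mem_filter, mem_filter, mem_filter]
    constructor
    · rintro ⟨⟨h1, h2, h3⟩, h4⟩
      exact ⟨h1, h4⟩
    · rintro ⟨h1, h2⟩
      have e1 : n % W = a % W := by
        rw [← h2, Nat.mod_mod_of_dvd _ (Nat.dvd_lcm_right q W)]
      have e2 : n % q = a % q := by
        rw [← h2, Nat.mod_mod_of_dvd _ (Nat.dvd_lcm_left q W)]
      exact ⟨⟨h1, by rw [e1]; exact ha.2.1, by rw [e2]; exact ha.2.2⟩, h2⟩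
  · intro n hn
    unfold Bl at hn
    rw [mem_filter] at hn
    unfold Tc
    rw [mem_filter, mem_range]
    refine ⟨Nat.mod_lt _ hM0, ?_, ?_⟩
    · rw [Nat.mod_mod_of_dvd _ (Nat.dvd_lcm_right q W)]
      exact hn.2.1
    · rw [Nat.mod_mod_of_dvd _ (Nat.dvd_lcm_left q W)]
      exact hn.2.2

/-- the square of a sum -/
theorem sq_sum_le (A : Finset ℕ) (g : ℕ → ℝ) :
    (∑ n ∈ A, g n) ^ 2 = ∑ n ∈ A, g n ^ 2 + 2 * ∑ n ∈ A, ∑ n' ∈ A with n < n', g n * g n' := by
  have h1 : (∑ n ∈ A, g n) ^ 2 = ∑ n ∈ A, ∑ n' ∈ A, g n * g n' := by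
    rw [sq, sum_mul_sum]
  have h2 : ∀ n ∈ A, ∑ n' ∈ A, g n * g n' = g n ^ 2 + ∑ n' ∈ A with n < n', g n * g n' +
      ∑ n' ∈ A with n' < n, g n * g n' := by
    intro n hn
    rw [sum_filter, sum_filter]
    have h3 : ∀ n' ∈ A, g n * g n' = (if n' = n then g n * g n' else 0) +
        (if n < n' then g n * g n' else 0) + (if n' < n then g n * g n' else 0) := by
      intro n' _
      rcases lt_trichotomy n n' with h | h | h
      · rw [if_neg (by omega), if_pos h, if_neg (by omega)]; ring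
      · rw [if_pos h.symm, if_neg (by omega), if_neg (by omega)]; ring
      · rw [if_neg (by omega), if_neg (by omega), if_pos h]; ring
    rw [sum_congr rfl h3, sum_add_distrib, sum_add_distrib, sum_ite_eq' A n, if_pos hn, sq]
  rw [h1, sum_congr rfl h2, sum_add_distrib, sum_add_distrib]
  have h3 : ∑ n ∈ A, ∑ n' ∈ A with n' < n, g n * g n' = ∑ n ∈ A, ∑ n' ∈ A with n < n', g n * g n' := by
    simp_rw [sum_filter]
    rw [sum_comm]
    apply sum_congr rfl
    intro n _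
    apply sum_congr rfl
    intro n' _
    split_ifs
    · ring
    · rfl
  rw [h3]
  ring

/-- pairs in the same block -/
theorem pairs_le {q J0 W b Y : ℕ} (hq : 1 ≤ q) (hW : 1 ≤ W) {g : ℕ → ℝ} (hg : ∀ n, 0 ≤ g n) :
    ∑ j ∈ Ico J0 (2 * J0), ∑ n ∈ Bl q J0 W b Y with n / q = j,
      ∑ n' ∈ (Bl q J0 W b Y).filter (fun n => n / q = j) with n < n', g n * g n' ≤
    ∑ i ∈ Icc 1 (Y / W), ∑ n ∈ Bl q J0 W b (Y - W * i), g n * g (n + W * i) := by
  have h0 : ∀ n ∈ Bl q J0 W b Y, n / q ∈ Ico J0 (2 * J0) := by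
    intro n hn
    unfold Bl at hn
    rw [mem_filter, mem_Ico] at hn
    rw [mem_Ico]
    constructor
    · rw [Nat.le_div_iff_mul_le (by omega), mul_comm]
      exact hn.1.1
    · apply Nat.div_lt_of_lt_mul
      have : q * (2 * J0) = 2 * (q * J0) := by ring
      omega
  calc ∑ j ∈ Ico J0 (2 * J0), ∑ n ∈ Bl q J0 W b Y with n / q = j,
      ∑ n' ∈ (Bl q J0 W b Y).filter (fun n => n / q = j) with n < n', g n * g n' =
      ∑ n ∈ Bl q J0 W b Y, ∑ n' ∈ (Bl q J0 W b Y).filter (fun n' => n' / q = n / q) with n < n',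
        g n * g n' := by
        rw [← sum_fiberwise_of_maps_to h0]
        apply sum_congr rfl
        intro j _
        apply sum_congr rfl
        intro n hn
        rw [mem_filter] at hn
        rw [hn.2]
    _ ≤ ∑ n ∈ Bl q J0 W b Y, ∑ i ∈ (Icc 1 (Y / W)).filter (fun i => n % q + W * i < Y),
        g n * g (n + W * i) := by
        apply sum_le_sum
        intro n hn
        rw [← mul_sum, ← mul_sum]
        apply mul_le_mul_of_nonneg_left _ (hg n)
        have hinj : Set.InjOn (fun i => n + W * i)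
            (((Icc 1 (Y / W)).filter (fun i => n % q + W * i < Y) : Finset ℕ) : Set ℕ) := by
          intro i _ i' _ h
          have h1 : n + W * i = n + W * i' := h
          have h2 : W * i = W * i' := by omega
          exact Nat.eq_of_mul_eq_mul_left hW h2
        rw [← sum_image (f := g) (g := fun i => n + W * i)
          (s := (Icc 1 (Y / W)).filter (fun i => n % q + W * i < Y)) hinj]
        apply sum_le_sum_of_subset_of_nonneg _ (fun _ _ _ => hg _)
        intro n' hn'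
        unfold Bl at hn hn'
        rw [mem_filter, mem_Ico] at hn
        rw [mem_filter, mem_filter, mem_filter] at hn'
        obtain ⟨⟨⟨_, h1, h2⟩, h3⟩, h4⟩ := hn'
        have h5 : n ≡ n' [MOD W] := by
          unfold Nat.ModEq
          rw [hn.2.1, h1]
        have h6 : W ∣ n' - n := (Nat.modEq_iff_dvd' h4.le).1 h5
        obtain ⟨i, hi⟩ := h6
        have h7 : n' = n + W * i := by omega
        have e1 := Nat.div_add_mod n q
        have e2 := Nat.div_add_mod n' q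
        rw [h3] at e2
        have h8 : n % q + W * i < Y := by omega
        rw [mem_image]
        refine ⟨i, ?_, h7.symm⟩
        rw [mem_filter, mem_Icc]
        refine ⟨⟨?_, ?_⟩, h8⟩
        · by_contra hc
          have : i = 0 := by omega
          rw [this] at h7
          omega
        · rw [Nat.le_div_iff_mul_le (by omega), mul_comm]
          omega
    _ = ∑ i ∈ Icc 1 (Y / W), ∑ n ∈ Bl q J0 W b (Y - W * i), g n * g (n + W * i) := by
        simp_rw [sum_filter]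
        rw [sum_comm]
        apply sum_congr rfl
        intro i _
        rw [← sum_filter]
        apply sum_congr _ (fun _ _ => rfl)
        ext n
        unfold Bl
        rw [mem_filter, mem_filter, mem_filter]
        constructor
        · rintro ⟨⟨h1, h2, h3⟩, h4⟩
          exact ⟨h1, h2, by omega⟩
        · rintro ⟨h1, h2, h3⟩
          exact ⟨⟨h1, h2, by omega⟩, by omega⟩

theorem gauss_sum (I : ℕ) (μ : ℝ) (hI : (I : ℝ) ≤ μ) :
    2 * ∑ i ∈ Icc 1 I, (μ - i + 1) ≤ μ ^ 2 + μ := by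
  have h1 : ∑ i ∈ Icc 1 I, (μ - i + 1) = I * μ + I - I * (I + 1) / 2 := by
    clear hI
    induction I with
    | zero => simp
    | succ I ih =>
      rw [sum_Icc_succ_top (by omega), ih]
      push_cast
      ring
  rw [h1]
  have h2 : 0 ≤ (μ - I) * (μ - I) := mul_self_nonneg _
  nlinarith

theorem samp {q W J0 Y N b : ℕ} {f : ℕ → ℝ} {Np : ℕ → ℕ} {s C : ℝ}
    (hq : 1 ≤ q) (hb : b < W) (hJ0 : 1 ≤ J0) (hYq : Y ≤ q) (hNW : N < W) (hs : 0 < s) (hs1 : s ≤ 1)
    (hC : 0 ≤ C) (hWY : W ≤ Y)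
    (H1 : ∀ a ∈ Tc q W b Y, ((q * J0 : ℕ) : ℝ) / (Nat.lcm q W : ℕ) * (1 - s) ≤
      ∑ n ∈ Sx (q * J0) (Nat.lcm q W) a, f n ^ 2)
    (H2 : ∀ a ∈ Tc q W b Y, ∑ n ∈ Sx (q * J0) (Nat.lcm q W) a, f n ^ 2 * (Np n : ℝ) ≤
      s * (((q * J0 : ℕ) : ℝ) / (Nat.lcm q W : ℕ)))
    (H3 : ∀ a ∈ Tc q W b Y, ∑ n ∈ Sx (q * J0) (Nat.lcm q W) a, f n ^ 4 ≤
      C * (((q * J0 : ℕ) : ℝ) / (Nat.lcm q W : ℕ)))
    (H4 : ∀ a ∈ Tc q W b Y, ∀ t : ℕ, N < t → t ≤ Y → ∑ n ∈ Sx (q * J0) (Nat.lcm q W) a,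
      f n ^ 2 * f (n + t) ^ 2 ≤ ((q * J0 : ℕ) : ℝ) / (Nat.lcm q W : ℕ) * (1 + s))
    (hμ : (C + 3) * ((Y : ℝ) / W + 1) ≤ s * ((Y : ℝ) / W) ^ 2) :
    (((Ico J0 (2 * J0)).filter (fun j => ¬ ∃ n, n % W = b ∧ q * j ≤ n ∧ n < q * j + Y ∧
      Np n = 0)).card : ℝ) ≤ 20 * s * J0 := by
  have hW : 1 ≤ W := by omega
  set M := Nat.lcm q W with hMdef
  have hM0 : 0 < M := Nat.lcm_pos hq hW
  set m := M / q with hm
  have hM : M = q * m := (Nat.mul_div_cancel' (Nat.dvd_lcm_left q W)).symm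
  have hm0 : 0 < m := by
    rcases Nat.eq_zero_or_pos m with h | h
    · rw [h, mul_zero] at hM; omega
    · exact h
  set Ω : ℝ := ((q * J0 : ℕ) : ℝ) / (M : ℕ) with hΩ
  have hqr : (0 : ℝ) < q := by exact_mod_cast hq
  have hmr : (0 : ℝ) < m := by exact_mod_cast hm0
  have hWr : (0 : ℝ) < W := by exact_mod_cast hW
  have hJr : (0 : ℝ) < J0 := by exact_mod_cast hJ0
  have hΩ0 : 0 ≤ Ω := by positivity
  have hΩm : Ω * m = J0 := by
    rw [hΩ, hM]
    push_cast
    field_simp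
  set μ : ℝ := (Y : ℝ) / W with hμdef
  have hμ1 : 1 ≤ μ := by
    rw [hμdef, le_div_iff₀ hWr, one_mul]
    exact_mod_cast hWY
  have hμ0 : 0 < μ := by linarith
  set g : ℕ → ℝ := fun n => f n ^ 2 with hg
  have hg0 : ∀ n, 0 ≤ g n := fun n => sq_nonneg _
  set B := Bl q J0 W b Y with hB
  set I := Ico J0 (2 * J0) with hI
  have hmaps : ∀ n ∈ B, n / q ∈ I := by
    intro n hn
    rw [hB] at hn
    unfold Bl at hn
    rw [mem_filter, mem_Ico] at hn
    rw [hI, mem_Ico]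
    constructor
    · rw [Nat.le_div_iff_mul_le (by omega), mul_comm]
      exact hn.1.1
    · apply Nat.div_lt_of_lt_mul
      have : q * (2 * J0) = 2 * (q * J0) := by ring
      omega
  have hcI : (I.card : ℝ) = J0 := by
    rw [hI, Nat.card_Ico]
    congr 1
    omega
  set F : ℕ → ℝ := fun j => ∑ n ∈ B with n / q = j, g n with hF
  set G : ℕ → ℝ := fun j => ∑ n ∈ B with n / q = j, g n * (Np n : ℝ) with hG
  have hcard : ∀ y ≤ q, ((Tc q W b y).card : ℝ) ≤ m * ((y : ℝ) / W) + m ∧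
      m * ((y : ℝ) / W) - m ≤ ((Tc q W b y).card : ℝ) := by
    intro y hy
    have h1 := abs_le.1 (Tc_card q W b y hq hb hy)
    rw [← hMdef, ← hm] at h1
    constructor <;> linarith [h1.1, h1.2]
  obtain ⟨hc1, hc2⟩ := hcard Y hYq
  rw [← hμdef] at hc1 hc2
  -- the first moment
  have S1 : J0 * (μ - 1) * (1 - s) ≤ ∑ j ∈ I, F j := by
    have h1 : ∑ j ∈ I, F j = ∑ n ∈ B, g n := by
      rw [← sum_fiberwise_of_maps_to hmaps]
    rw [h1, hB, sum_Bl q J0 W b Y hq hW, ← hMdef]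
    refine le_trans ?_ (sum_le_sum H1)
    rw [sum_const, nsmul_eq_mul]
    have h2 : 0 ≤ Ω * (1 - s) := mul_nonneg hΩ0 (by linarith)
    calc J0 * (μ - 1) * (1 - s) = (m * μ - m) * (Ω * (1 - s)) := by rw [← hΩm]; ring
      _ ≤ _ := mul_le_mul_of_nonneg_right hc2 h2
  have S2 : ∑ j ∈ I, G j ≤ J0 * (s * (μ + 1)) := by
    have h1 : ∑ j ∈ I, G j = ∑ n ∈ B, g n * (Np n : ℝ) := by
      rw [← sum_fiberwise_of_maps_to hmaps]
    rw [h1, hB, sum_Bl q J0 W b Y hq hW, ← hMdef]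
    refine (sum_le_sum H2).trans ?_
    rw [sum_const, nsmul_eq_mul]
    calc ((Tc q W b Y).card : ℝ) * (s * Ω) ≤ (m * μ + m) * (s * Ω) :=
          mul_le_mul_of_nonneg_right hc1 (mul_nonneg hs.le hΩ0)
      _ = J0 * (s * (μ + 1)) := by rw [← hΩm]; ring
  have S3a : ∑ n ∈ B, g n ^ 2 ≤ C * (J0 * (μ + 1)) := by
    rw [hB, sum_Bl q J0 W b Y hq hW, ← hMdef]
    have h1 : ∀ a ∈ Tc q W b Y, ∑ n ∈ Sx (q * J0) M a, g n ^ 2 ≤ C * Ω := by
      intro a ha
      refine le_trans (le_of_eq ?_) (H3 a ha)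
      apply sum_congr rfl
      intro n _
      rw [hg]
      ring
    refine (sum_le_sum h1).trans ?_
    rw [sum_const, nsmul_eq_mul]
    calc ((Tc q W b Y).card : ℝ) * (C * Ω) ≤ (m * μ + m) * (C * Ω) :=
          mul_le_mul_of_nonneg_right hc1 (mul_nonneg hC hΩ0)
      _ = C * (J0 * (μ + 1)) := by rw [← hΩm]; ring
  have S3b : ∑ i ∈ Icc 1 (Y / W), ∑ n ∈ Bl q J0 W b (Y - W * i), g n * g (n + W * i) ≤
      J0 * (1 + s) * ∑ i ∈ Icc 1 (Y / W), (μ - i + 1) := by
    rw [mul_sum]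
    apply sum_le_sum
    intro i hi
    rw [mem_Icc] at hi
    have hWi : W * i ≤ Y := by
      rw [mul_comm]
      exact (Nat.le_div_iff_mul_le (by omega)).1 hi.2
    rw [sum_Bl q J0 W b _ hq hW, ← hMdef]
    have h1 : ∀ a ∈ Tc q W b (Y - W * i), ∑ n ∈ Sx (q * J0) M a, g n * g (n + W * i) ≤
        Ω * (1 + s) := by
      intro a ha
      apply H4 a _ (W * i) _ hWi
      · unfold Tc at ha ⊢
        rw [mem_filter] at ha ⊢
        exact ⟨ha.1, ha.2.1, lt_of_lt_of_le ha.2.2 (Nat.sub_le _ _)⟩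
      · calc N < W := hNW
          _ = W * 1 := (mul_one W).symm
          _ ≤ W * i := Nat.mul_le_mul_left W hi.1
    refine (sum_le_sum h1).trans ?_
    rw [sum_const, nsmul_eq_mul]
    have h2 := (hcard (Y - W * i) ((Nat.sub_le _ _).trans hYq)).1
    have h3 : ((Y - W * i : ℕ) : ℝ) / W = μ - i := by
      rw [Nat.cast_sub hWi, hμdef]
      push_cast
      field_simp
    rw [h3] at h2
    calc ((Tc q W b (Y - W * i)).card : ℝ) * (Ω * (1 + s)) ≤
          (m * (μ - i) + m) * (Ω * (1 + s)) :=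
          mul_le_mul_of_nonneg_right h2 (mul_nonneg hΩ0 (by linarith))
      _ = J0 * (1 + s) * (μ - i + 1) := by rw [← hΩm]; ring
  have hIμ : ((Y / W : ℕ) : ℝ) ≤ μ := Nat.cast_div_le
  have S3c := gauss_sum (Y / W) μ hIμ
  have S3 : ∑ j ∈ I, F j ^ 2 ≤ J0 * (C * (μ + 1) + (1 + s) * (μ ^ 2 + μ)) := by
    have h1 : ∀ j ∈ I, F j ^ 2 = ∑ n ∈ B with n / q = j, g n ^ 2 + 2 *
        ∑ n ∈ B with n / q = j, ∑ n' ∈ (B.filter (fun n => n / q = j)) with n < n', g n * g n' :=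
      fun j _ => sq_sum_le _ g
    rw [sum_congr rfl h1, sum_add_distrib, ← mul_sum]
    have h2 : ∑ j ∈ I, ∑ n ∈ B with n / q = j, g n ^ 2 = ∑ n ∈ B, g n ^ 2 :=
      sum_fiberwise_of_maps_to hmaps _
    rw [h2]
    have h3 := pairs_le (q := q) (J0 := J0) (W := W) (b := b) (Y := Y) hq hW hg0
    have h4 : J0 * (1 + s) * (2 * ∑ i ∈ Icc 1 (Y / W), (μ - i + 1)) ≤
        J0 * (1 + s) * (μ ^ 2 + μ) :=
      mul_le_mul_of_nonneg_left S3c (mul_nonneg hJr.le (by linarith))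
    have h5 := h3.trans S3b
    have h6 : J0 * (C * (μ + 1) + (1 + s) * (μ ^ 2 + μ)) =
        C * (J0 * (μ + 1)) + J0 * (1 + s) * (μ ^ 2 + μ) := by ring
    rw [h6]
    linarith
  have S4 : ∑ j ∈ I, (F j - μ) ^ 2 ≤ J0 * (4 * s * μ ^ 2) := by
    have h1 : ∑ j ∈ I, (F j - μ) ^ 2 = ∑ j ∈ I, F j ^ 2 - 2 * μ * ∑ j ∈ I, F j + J0 * μ ^ 2 := by
      have h2 : ∀ j ∈ I, (F j - μ) ^ 2 = F j ^ 2 - 2 * μ * F j + μ ^ 2 := fun j _ => by ring
      rw [sum_congr rfl h2, sum_add_distrib, sum_sub_distrib, ← mul_sum, sum_const, nsmul_eq_mul,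
        hcI]
    rw [h1]
    have h3 : 2 * μ * (J0 * (μ - 1) * (1 - s)) ≤ 2 * μ * ∑ j ∈ I, F j :=
      mul_le_mul_of_nonneg_left S1 (by linarith)
    have h4 : C * (μ + 1) + (1 + s) * (μ ^ 2 + μ) - 2 * μ * ((μ - 1) * (1 - s)) + μ ^ 2 ≤
        4 * s * μ ^ 2 := by
      have h5 : C * (μ + 1) + (1 + s) * (μ ^ 2 + μ) - 2 * μ * ((μ - 1) * (1 - s)) + μ ^ 2 =
          3 * s * μ ^ 2 + C * (μ + 1) + μ * (3 - s) := by ring
      rw [h5]
      have h6 : μ * (3 - s) ≤ 3 * (μ + 1) := by nlinarith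
      have h7 : (C + 3) * (μ + 1) = C * (μ + 1) + 3 * (μ + 1) := by ring
      linarith
    have h5 := mul_le_mul_of_nonneg_left h4 hJr.le
    have h6 : J0 * (C * (μ + 1) + (1 + s) * (μ ^ 2 + μ) - 2 * μ * ((μ - 1) * (1 - s)) + μ ^ 2) =
        J0 * (C * (μ + 1) + (1 + s) * (μ ^ 2 + μ)) - 2 * μ * (J0 * (μ - 1) * (1 - s)) +
          J0 * μ ^ 2 := by ring
    linarith
  -- the bad blocks
  set Bad := I.filter (fun j => ¬ ∃ n, n % W = b ∧ q * j ≤ n ∧ n < q * j + Y ∧ Np n = 0) with hBad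
  have hG0 : ∀ j, 0 ≤ G j := fun j =>
    sum_nonneg fun n _ => mul_nonneg (hg0 n) (Nat.cast_nonneg _)
  have S5 : ∀ j ∈ Bad, (1 : ℝ) ≤ 4 / μ ^ 2 * (F j - μ) ^ 2 + 2 / μ * G j := by
    intro j hj
    rw [hBad, mem_filter] at hj
    have hFG : F j ≤ G j := by
      apply sum_le_sum
      intro n hn
      rw [mem_filter] at hn
      have h1 : 1 ≤ Np n := by
        by_contra hc
        apply hj.2
        have h2 := hn.1
        rw [hB] at h2
        unfold Bl at h2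
        rw [mem_filter] at h2
        have e1 := Nat.div_add_mod n q
        rw [hn.2] at e1
        exact ⟨n, h2.2.1, by omega, by omega, by omega⟩
      have h3 : (1 : ℝ) ≤ (Np n : ℝ) := by exact_mod_cast h1
      exact le_mul_of_one_le_right (hg0 n) h3
    have h1 : 0 ≤ 4 / μ ^ 2 * (F j - μ) ^ 2 := by positivity
    have h2 : 0 ≤ 2 / μ * G j := mul_nonneg (by positivity) (hG0 j)
    rcases lt_or_ge (F j) (μ / 2) with h | h
    · have h3 : μ ^ 2 / 4 ≤ (F j - μ) ^ 2 := by nlinarith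
      have h4 : 1 ≤ 4 / μ ^ 2 * (F j - μ) ^ 2 := by
        calc (1 : ℝ) = 4 / μ ^ 2 * (μ ^ 2 / 4) := by field_simp
          _ ≤ _ := mul_le_mul_of_nonneg_left h3 (by positivity)
      linarith
    · have h4 : 1 ≤ 2 / μ * G j := by
        calc (1 : ℝ) = 2 / μ * (μ / 2) := by field_simp
          _ ≤ _ := mul_le_mul_of_nonneg_left (h.trans hFG) (by positivity)
      linarith
  calc (Bad.card : ℝ) = ∑ _j ∈ Bad, (1 : ℝ) := by simp
    _ ≤ ∑ j ∈ Bad, (4 / μ ^ 2 * (F j - μ) ^ 2 + 2 / μ * G j) := sum_le_sum S5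
    _ ≤ ∑ j ∈ I, (4 / μ ^ 2 * (F j - μ) ^ 2 + 2 / μ * G j) := by
        apply sum_le_sum_of_subset_of_nonneg (filter_subset _ _)
        intro j _ _
        have h1 : 0 ≤ 4 / μ ^ 2 * (F j - μ) ^ 2 := by positivity
        have h2 : 0 ≤ 2 / μ * G j := mul_nonneg (by positivity) (hG0 j)
        linarith
    _ = 4 / μ ^ 2 * ∑ j ∈ I, (F j - μ) ^ 2 + 2 / μ * ∑ j ∈ I, G j := by
        rw [sum_add_distrib, ← mul_sum, ← mul_sum]
    _ ≤ 4 / μ ^ 2 * (J0 * (4 * s * μ ^ 2)) + 2 / μ * (J0 * (s * (μ + 1))) := by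
        apply add_le_add
        · exact mul_le_mul_of_nonneg_left S4 (by positivity)
        · exact mul_le_mul_of_nonneg_left S2 (by positivity)
    _ = 16 * s * J0 + 2 * s * J0 * ((μ + 1) / μ) := by
        field_simp
        ring
    _ ≤ 16 * s * J0 + 2 * s * J0 * 2 := by
        have h1 : (μ + 1) / μ ≤ 2 := by
          rw [div_le_iff₀ hμ0]
          linarith
        have h2 := mul_le_mul_of_nonneg_left h1 (by positivity : 0 ≤ 2 * s * J0)
        linarith
    _ = 20 * s * J0 := by ring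

end Pool.Agent.K7.H60.SQ
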