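import Pool.Agent.K7.H60.SQ.Bk
import Pool.Agent.K7.H60.SQ.PN

/-!
Long gaps just above almost all the terms of an arithmetic progression `r + k q`, `k < K`.
-/

set_option autoImplicit false

namespace Pool.Agent.K7.H60.SQ

open Finset Filter Pool.Agent.K7.H60.TL

open scoped Classical

theorem ev_nat {p : ℝ → Prop} (h : ∀ᶠ x : ℝ in atTop, p x) : ∀ᶠ n : ℕ in atTop, p (n : ℝ) :=
  tendsto_natCast_atTop_atTop.eventually h

theorem ev_poly (K s : ℝ) (hs : 0 < s) (b : ℝ) (hb : 0 < b) : ∀ᶠ x : ℝ in atTop,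
    K * Real.log x + b ≤ x ^ s := by
  filter_upwards [ev_log_rpow (K + b) s hs, eventually_ge_atTop (Real.exp 1)] with x hx h1
  have h2 : 1 ≤ Real.log x := by
    rw [Real.le_log_iff_exp_le (by linarith [Real.exp_pos 1])]
    exact h1
  nlinarith

theorem mul_gaps (θ : ℝ) (hθ : 0 < θ) (hθ1 : θ < 1) (δ D : ℝ) (hδ : 0 < δ) (A : ℕ) :
    ∃ c : ℝ, 0 < c ∧ ∃ n₀ : ℕ, ∀ n : ℕ, n₀ ≤ n → ∀ q r K : ℕ,
      (2 : ℝ) ^ (δ * n) ≤ q → (q : ℝ) ≤ 2 ^ (D * n) → (2 : ℝ) ^ (δ * n) ≤ K →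
      (((range K).filter (fun k => ¬ ∃ a b : ℕ, q * k + r < a ∧
        (b : ℝ) ≤ ((q * k + r : ℕ) : ℝ) + Real.exp ((n : ℝ) ^ θ) ∧
        c * (Nat.nth Nat.Prime (n - 1) : ℝ) ≤ (b : ℝ) - a ∧
        ∀ m ∈ Icc a b, ¬ m.Prime)).card : ℝ) ≤ K / (n : ℝ) ^ A := by
  obtain ⟨c₁, hc₁, hc₁1, L₀, hL₀1, hL₀⟩ := blocksG (θ / 2) (by positivity) (by linarith) (A + 1)
  set κ : ℝ := δ / 2 with hκ
  have hκ0 : 0 < κ := by positivity
  refine ⟨c₁ * δ / 32, by positivity, ?_⟩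
  have e1 : ∀ᶠ x : ℝ in atTop, L₀ ≤ κ * x :=
    (tendsto_id.const_mul_atTop hκ0).eventually_ge_atTop L₀
  have e2 : ∀ᶠ x : ℝ in atTop, |D| ≤ κ ^ 9 * x :=
    (tendsto_id.const_mul_atTop (by positivity)).eventually_ge_atTop _
  have e3 : ∀ᶠ x : ℝ in atTop, κ ^ (θ / 2) + 4 ≤ x ^ (θ / 2) := ev_rpow_ge _ _ (by positivity)
  have e4 : ∀ᶠ x : ℝ in atTop, 3 * Real.log x + 3 ≤ x ^ (θ / 2) :=
    ev_poly 3 (θ / 2) (by positivity) 3 (by norm_num)
  have e5 : ∀ᶠ x : ℝ in atTop, 4 / κ ≤ x ^ (1 - θ) := ev_rpow_ge _ _ (by linarith)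
  have e6 : ∀ᶠ x : ℝ in atTop, ((A : ℝ) + 1) * Real.log x + 3 ≤ x ^ (1 / 2 : ℝ) :=
    ev_poly _ _ (by norm_num) 3 (by norm_num)
  have e7 : ∀ᶠ x : ℝ in atTop, 10 / δ ≤ x ^ (1 / 2 : ℝ) := ev_rpow_ge _ _ (by norm_num)
  have e8 : ∀ᶠ x : ℝ in atTop, -Real.log κ ≤ 1 / 2 * Real.log x :=
    (Real.tendsto_log_atTop.const_mul_atTop (by norm_num)).eventually_ge_atTop _
  have e9 : ∀ᶠ x : ℝ in atTop, 8 / κ ^ (A + 1) ≤ x := eventually_ge_atTop _
  have e10 : ∀ᶠ x : ℝ in atTop, 32 / (c₁ * δ) ≤ x := eventually_ge_atTop _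
  have e11 : ∀ᶠ x : ℝ in atTop, 1 ≤ Real.log x := Real.tendsto_log_atTop.eventually_ge_atTop 1
  have e12 : ∀ᶠ x : ℝ in atTop, 1 + κ * (κ + 1) ≤ x := eventually_ge_atTop _
  obtain ⟨n₀, hn₀⟩ := eventually_atTop.1 (nth_le.and (ev_nat (e1.and (e2.and (e3.and (e4.and (e5.and
    (e6.and (e7.and (e8.and (e9.and (e10.and (e11.and e12)))))))))))))
  refine ⟨n₀, fun n hn q r K hq1 hq2 hK1 => ?_⟩
  obtain ⟨hp, g1, g2, g3, g4, g5, g6, g7, g8, g9, g10, g11, g12⟩ := hn₀ n hn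
  set x : ℝ := (n : ℝ) with hx
  have hx1 : 1 ≤ x := by
    have : 0 < κ * (κ + 1) := by positivity
    linarith
  have hx0 : 0 < x := by linarith
  set lx : ℝ := Real.log x with hlx
  set L : ℝ := κ * x with hL
  have hL1 : 1 ≤ L := hL₀1.trans g1
  have hLpos : 0 < L := by linarith
  have hlogL : Real.log L = Real.log κ + lx := by
    rw [hL, Real.log_mul hκ0.ne' hx0.ne']
  have hlogL2 : lx / 2 ≤ Real.log L := by linarith
  have hL9 : 1 ≤ L ^ 8 := one_le_pow₀ hL1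
  have h2exp : ∀ y : ℝ, (2 : ℝ) ^ y = Real.exp (Real.log 2 * y) := by
    intro y
    rw [Real.rpow_def_of_pos (by norm_num)]
  have hlog2a := Real.log_two_gt_d9
  have hlog2b := Real.log_two_lt_d9
  -- sizes of the window
  set t : ℝ := L ^ (θ / 2) with ht
  have ht2 : t = κ ^ (θ / 2) * x ^ (θ / 2) := by
    rw [ht, hL, Real.mul_rpow hκ0.le hx0.le]
  have hxθ : x ^ θ = x ^ (θ / 2) * x ^ (θ / 2) := by
    rw [← Real.rpow_add hx0]; congr 1; ring
  have hxθ0 : 0 < x ^ (θ / 2) := by positivity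
  have ht3 : t + (3 * lx + 3) ≤ x ^ θ := by
    have : (κ ^ (θ / 2) + 4) * x ^ (θ / 2) ≤ x ^ (θ / 2) * x ^ (θ / 2) :=
      mul_le_mul_of_nonneg_right g3 hxθ0.le
    rw [hxθ, ht2]
    linarith
  have hx4 : x ^ θ ≤ L / 4 := by
    have h1 : x = x ^ θ * x ^ (1 - θ) := by
      rw [← Real.rpow_add hx0, show θ + (1 - θ) = 1 by ring, Real.rpow_one]
    have h2 : x ^ θ * (4 / κ) ≤ x ^ θ * x ^ (1 - θ) := mul_le_mul_of_nonneg_left g5 (by positivity)
    rw [← h1] at h2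
    have h3 : x ^ θ * (4 / κ) * κ ≤ x * κ := mul_le_mul_of_nonneg_right h2 hκ0.le
    have h4 : x ^ θ * (4 / κ) * κ = 4 * x ^ θ := by field_simp
    rw [hL]
    linarith
  set Y : ℕ := ⌈Real.exp t⌉₊ with hY
  have hY1 : Real.exp t ≤ Y := Nat.le_ceil _
  have hY2 : (Y : ℝ) < Real.exp t + 1 := Nat.ceil_lt_add_one (Real.exp_pos _).le
  have hx3 : x ^ 3 = Real.exp (3 * lx) := by
    rw [hlx, mul_comm, Real.exp_mul, Real.exp_log hx0]
    norm_num
  have hYx : (Y : ℝ) + x ^ 3 + 1 ≤ Real.exp (x ^ θ) := by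
    have h1 : Real.exp (t + (3 * lx + 3)) ≤ Real.exp (x ^ θ) := Real.exp_le_exp.mpr ht3
    rw [Real.exp_add, Real.exp_add, ← hx3] at h1
    have h2 : (8 : ℝ) ≤ Real.exp 3 := by
      have h4 : (2 : ℝ) ≤ Real.exp 1 := by have := Real.exp_one_gt_d9; linarith
      have h5 : Real.exp 3 = (Real.exp 1) ^ 3 := by rw [← Real.exp_nat_mul]; norm_num
      rw [h5]
      calc (8 : ℝ) = 2 ^ 3 := by norm_num
        _ ≤ (Real.exp 1) ^ 3 := pow_le_pow_left₀ (by norm_num) h4 3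
    have h3 : 1 ≤ Real.exp t := Real.one_le_exp (by positivity)
    have h5 : 1 ≤ x ^ 3 := one_le_pow₀ hx1
    have h6 : Real.exp t * (x ^ 3 * 8) ≤ Real.exp t * (x ^ 3 * Real.exp 3) :=
      mul_le_mul_of_nonneg_left (mul_le_mul_of_nonneg_left h2 (by positivity)) (Real.exp_pos _).le
    have h7 : Real.exp t ≤ Real.exp t * x ^ 3 := le_mul_of_one_le_right (Real.exp_pos _).le h5
    have h8 : x ^ 3 ≤ Real.exp t * x ^ 3 := le_mul_of_one_le_left (by positivity) h3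
    linarith
  have hYL : (Y : ℝ) ≤ Real.exp (L / 2) := by
    have h1 : Real.exp (x ^ θ) ≤ Real.exp (L / 2) := Real.exp_le_exp.mpr (by linarith)
    have : 0 ≤ x ^ 3 := by positivity
    linarith
  have hδq : Real.exp (L / 2) ≤ (2 : ℝ) ^ (δ * x) := by
    rw [h2exp]
    apply Real.exp_le_exp.mpr
    have h1 : L = δ * x / 2 := by rw [hL, hκ]; ring
    have : 0 < δ * x := by positivity
    rw [h1]
    nlinarith
  have hYq : Y ≤ q := by
    have : (Y : ℝ) ≤ q := hYL.trans (hδq.trans hq1)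
    exact_mod_cast this
  have hq0 : (0 : ℝ) < q := lt_of_lt_of_le (by positivity) hq1
  have hq0' : 1 ≤ q := by exact_mod_cast hq0
  have hlogq : Real.log ((q * 1 : ℕ) : ℝ) ≤ L ^ 9 := by
    rw [mul_one]
    have h1 : Real.log q ≤ Real.log ((2 : ℝ) ^ (D * x)) := Real.log_le_log hq0 hq2
    rw [Real.log_rpow (by norm_num)] at h1
    have h2 : D * x * Real.log 2 ≤ |D| * x := by
      have h3 : D * x * Real.log 2 ≤ |D| * x * Real.log 2 := by
        apply mul_le_mul_of_nonneg_right _ (by linarith)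
        exact mul_le_mul_of_nonneg_right (le_abs_self D) hx0.le
      have h4 : 0 ≤ |D| * x := by positivity
      nlinarith
    have h3 : |D| * x ≤ κ ^ 9 * x * x := mul_le_mul_of_nonneg_right g2 hx0.le
    have h4 : κ ^ 9 * x * x ≤ L ^ 9 := by
      rw [hL, mul_pow]
      have h5 : x ^ 2 ≤ x ^ 9 := pow_le_pow_right₀ hx1 (by norm_num)
      have h6 : κ ^ 9 * x ^ 2 ≤ κ ^ 9 * x ^ 9 := mul_le_mul_of_nonneg_left h5 (by positivity)
      calc κ ^ 9 * x * x = κ ^ 9 * x ^ 2 := by ring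
        _ ≤ _ := h6
    linarith
  -- the length
  set N : ℕ := ⌊c₁ * L * Real.log L⌋₊ with hN
  have hlogL0 : 0 < Real.log L := by linarith
  have hcLl : 0 ≤ c₁ * L * Real.log L := by positivity
  have hN1 : (N : ℝ) ≤ c₁ * L * Real.log L := Nat.floor_le hcLl
  have hN2 : c₁ * L * Real.log L < N + 1 := Nat.lt_floor_add_one _
  have hlogLL : Real.log L ≤ L := by
    have := Real.log_le_sub_one_of_pos hLpos
    linarith
  have hlxx : lx ≤ x := by
    have := Real.log_le_sub_one_of_pos hx0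
    linarith
  have hNx : (N : ℝ) ≤ x ^ 3 := by
    have h1 : Real.log L ≤ (κ + 1) * x := by
      calc Real.log L ≤ L := hlogLL
        _ = κ * x := hL
        _ ≤ (κ + 1) * x := by nlinarith
    calc (N : ℝ) ≤ c₁ * L * Real.log L := hN1
      _ ≤ 1 * L * ((κ + 1) * x) := by
          apply mul_le_mul _ h1 hlogL0.le (by positivity)
          exact mul_le_mul_of_nonneg_right hc₁1 hLpos.le
      _ = (κ * (κ + 1)) * x ^ 2 := by rw [hL]; ring
      _ ≤ x * x ^ 2 := mul_le_mul_of_nonneg_right (by linarith) (by positivity)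
      _ = x ^ 3 := by ring
  have hlen : c₁ * δ / 32 * (Nat.nth Nat.Prime (n - 1) : ℝ) ≤ (N : ℝ) - 1 := by
    have h1 : c₁ * δ / 32 * (Nat.nth Nat.Prime (n - 1) : ℝ) ≤ c₁ * δ / 32 * (4 * x * lx) :=
      mul_le_mul_of_nonneg_left hp (by positivity)
    have h2 : c₁ * δ / 4 * (x * lx) ≤ c₁ * L * Real.log L := by
      calc c₁ * δ / 4 * (x * lx) = c₁ * L * (lx / 2) := by rw [hL, hκ]; ring
        _ ≤ c₁ * L * Real.log L := mul_le_mul_of_nonneg_left hlogL2 (by positivity)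
    have h3 : 32 ≤ c₁ * δ * x := by
      rw [div_le_iff₀ (by positivity)] at g10
      linarith
    have h4 : c₁ * δ * x * 1 ≤ c₁ * δ * x * lx := mul_le_mul_of_nonneg_left g11 (by positivity)
    nlinarith
  -- the threshold
  have hK0 : (0 : ℝ) < K := lt_of_lt_of_le (by positivity) hK1
  have hxA : 0 < x ^ A := by positivity
  have hKT : Real.exp L ≤ (K : ℝ) / (8 * x ^ A) := by
    rw [le_div_iff₀ (by positivity)]
    refine le_trans ?_ hK1
    have h1 : x ^ A = Real.exp ((A : ℝ) * lx) := by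
      rw [hlx, mul_comm, Real.exp_mul, Real.exp_log hx0, Real.rpow_natCast]
    have h2 : (8 : ℝ) ≤ Real.exp 3 := by
      have h4 : (2 : ℝ) ≤ Real.exp 1 := by have := Real.exp_one_gt_d9; linarith
      have h5 : Real.exp 3 = (Real.exp 1) ^ 3 := by rw [← Real.exp_nat_mul]; norm_num
      rw [h5]
      calc (8 : ℝ) = 2 ^ 3 := by norm_num
        _ ≤ (Real.exp 1) ^ 3 := pow_le_pow_left₀ (by norm_num) h4 3
    rw [h2exp, h1]
    calc Real.exp L * (8 * Real.exp ((A : ℝ) * lx)) ≤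
          Real.exp L * (Real.exp 3 * Real.exp ((A : ℝ) * lx)) := by
          apply mul_le_mul_of_nonneg_left _ (Real.exp_pos _).le
          exact mul_le_mul_of_nonneg_right h2 (Real.exp_pos _).le
      _ = Real.exp (L + (3 + (A : ℝ) * lx)) := by rw [Real.exp_add, Real.exp_add]
      _ ≤ _ := by
          apply Real.exp_le_exp.mpr
          have h3 : x = x ^ (1 / 2 : ℝ) * x ^ (1 / 2 : ℝ) := by
            rw [← Real.rpow_add hx0]; norm_num
          have h4 : 0 < x ^ (1 / 2 : ℝ) := by positivity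
          have h5 : 10 / δ * x ^ (1 / 2 : ℝ) ≤ x := by
            calc 10 / δ * x ^ (1 / 2 : ℝ) ≤ x ^ (1 / 2 : ℝ) * x ^ (1 / 2 : ℝ) :=
                  mul_le_mul_of_nonneg_right g7 h4.le
              _ = x := h3.symm
          have h6 : 10 * x ^ (1 / 2 : ℝ) ≤ δ * x := by
            have := mul_le_mul_of_nonneg_left h5 hδ.le
            have e : δ * (10 / δ * x ^ (1 / 2 : ℝ)) = 10 * x ^ (1 / 2 : ℝ) := by field_simp
            linarith
          have h7 : L = δ * x / 2 := by rw [hL, hκ]; ring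
          have h8 : 0 < δ * x := by positivity
          rw [h7]
          nlinarith
  set T : ℕ := ⌈(K : ℝ) / (8 * x ^ A)⌉₊ with hT
  have hT1 : (K : ℝ) / (8 * x ^ A) ≤ T := Nat.le_ceil _
  have hT2 : (T : ℝ) < (K : ℝ) / (8 * x ^ A) + 1 := Nat.ceil_lt_add_one (by positivity)
  have hexpL : 2 < Real.exp L := by
    have := Real.exp_one_gt_d9
    have := Real.exp_le_exp.mpr hL1
    linarith
  have hT3 : 3 ≤ T := by
    have : (2 : ℝ) < T := by linarith
    have : 2 < T := by exact_mod_cast this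
    omega
  have hseg := dyadic_seg (fun k => ¬ ∃ a b : ℕ, q * k + r < a ∧
        (b : ℝ) ≤ ((q * k + r : ℕ) : ℝ) + Real.exp (x ^ θ) ∧
        c₁ * δ / 32 * (Nat.nth Nat.Prime (n - 1) : ℝ) ≤ (b : ℝ) - a ∧
        ∀ m ∈ Icc a b, ¬ m.Prime) T (1 / L ^ (A + 1)) (by positivity) hT3 K (by
    intro J hJ1 hJ2
    have hJT : (T : ℝ) ≤ J := by exact_mod_cast hJ1
    have h1 := hL₀ L g1 1 r q J Y N le_rfl hq0' hlogq (by linarith) hYq hY1 hYL (by
      simpa using hN1)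
    refine le_trans ?_ (h1.trans (le_of_eq (by ring)))
    apply Nat.cast_le.mpr
    apply card_le_card
    intro j hj
    rw [mem_filter] at hj ⊢
    refine ⟨hj.1, ?_⟩
    rintro ⟨m, hm1, hm2, hm3⟩
    apply hj.2
    refine ⟨m + 1 + r, m + N + r, by omega, ?_, ?_, ?_⟩
    · have h2 : (m : ℝ) ≤ q * j + Y := by exact_mod_cast hm2.le
      push_cast
      linarith
    · push_cast
      linarith
    · intro m' hm'
      rw [mem_Icc] at hm'
      have h3 := hm3 (m' - r - m) (by rw [mem_Icc]; omega)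
      have h4 : 1 * (m + (m' - r - m)) + r = m' := by omega
      rwa [h4] at h3)
  refine hseg.trans ?_
  have h1 : 2 * (1 / L ^ (A + 1)) * K ≤ 1 / 4 * (K / x ^ A) := by
    have h2 : L ^ (A + 1) = κ ^ (A + 1) * x * x ^ A := by rw [hL, mul_pow]; ring
    rw [h2]
    have h3 : 8 ≤ κ ^ (A + 1) * x := by
      rw [div_le_iff₀ (by positivity)] at g9
      linarith
    have h4 : 2 * (1 / (κ ^ (A + 1) * x * x ^ A)) * K = 2 / (κ ^ (A + 1) * x) * (K / x ^ A) := by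
      field_simp
    rw [h4]
    apply mul_le_mul_of_nonneg_right _ (by positivity)
    rw [div_le_div_iff₀ (by positivity) (by norm_num)]
    linarith
  have h2 : 2 < (K : ℝ) / (8 * x ^ A) := by linarith
  have h3 : (K : ℝ) / (8 * x ^ A) = 1 / 8 * (K / x ^ A) := by field_simp
  rw [h3] at hT2 h2
  linarith

end Pool.Agent.K7.H60.SQ
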