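import Pool.Agent.K7.H60.SQ.Rk
import Pool.Agent.K7.H60.SQ.MulP

/-!
Record gaps just above almost all the terms of an arithmetic progression `r + k q`, `k < K`.
-/

set_option autoImplicit false

namespace Pool.Agent.K7.H60.SQ

open Finset Filter Pool.Agent.K7.H60.TL

open scoped Classical

/-- the length -/
noncomputable def FR (x : ℝ) : ℝ := x * (Real.log x) ^ 2 * Real.log (Real.log (Real.log x)) /
  (Real.log (Real.log x)) ^ 2

theorem FR_scale (κ : ℝ) (hκ : 0 < κ) : ∀ᶠ x : ℝ in atTop, κ / 32 * FR x ≤ FR (κ * x) ∧ x ≤ FR x ∧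
    FR (κ * x) ≤ (κ * x) ^ 3 := by
  have t1 := Real.tendsto_log_atTop
  have t2 := t1.comp t1
  have t3 := t1.comp t2
  have tκ : Tendsto (fun x : ℝ => κ * x) atTop atTop := tendsto_id.const_mul_atTop hκ
  have tt3 : Tendsto (fun x : ℝ => Real.log (Real.log (Real.log (κ * x)))) atTop atTop := t3.comp tκ
  filter_upwards [t1.eventually_ge_atTop (2 * |Real.log κ| + 4), t2.eventually_ge_atTop 4,
    t3.eventually_ge_atTop 2, tt3.eventually_ge_atTop 1, eventually_ge_atTop 1,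
    tκ.eventually_ge_atTop 1] with x h1 h2 h3 h4 h5 h5'
  simp only [Function.comp] at h2 h3
  have hx0 : 0 < x := by linarith
  set l := Real.log x with hl
  set t := Real.log l with ht
  set s := Real.log t with hs
  have ha := le_abs_self (Real.log κ)
  have hb := neg_abs_le (Real.log κ)
  have hc := abs_nonneg (Real.log κ)
  have e1 : Real.log (κ * x) = Real.log κ + l := by rw [Real.log_mul hκ.ne' hx0.ne']
  rw [e1] at h4
  have hlog2a := Real.log_two_gt_d9
  have hlog2b := Real.log_two_lt_d9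
  set l' := Real.log κ + l with hl'
  have e2 : l / 2 ≤ l' := by linarith
  have e3 : l' ≤ 2 * l := by linarith
  have hl0 : 0 < l := by linarith
  have hl'0 : 0 < l' := by linarith
  have e4 : t / 2 ≤ Real.log l' := by
    have h6 : Real.log (l / 2) ≤ Real.log l' := Real.log_le_log (by linarith) e2
    rw [Real.log_div hl0.ne' (by norm_num)] at h6
    linarith
  have e5 : Real.log l' ≤ 2 * t := by
    have h6 : Real.log l' ≤ Real.log (2 * l) := Real.log_le_log hl'0 e3
    rw [Real.log_mul (by norm_num) hl0.ne'] at h6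
    linarith
  set t' := Real.log l' with ht'
  have ht0 : 0 < t := by linarith
  have ht'0 : 0 < t' := by linarith
  have e6 : s / 2 ≤ Real.log t' := by
    have h6 : Real.log (t / 2) ≤ Real.log t' := Real.log_le_log (by linarith) e4
    rw [Real.log_div ht0.ne' (by norm_num)] at h6
    linarith
  have hs0 : 0 < s := by linarith
  have htl : t ≤ l := by
    have := Real.log_le_sub_one_of_pos hl0
    linarith
  have ht'l : t' ≤ l' := by
    have := Real.log_le_sub_one_of_pos hl'0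
    linarith
  have hs't : Real.log t' ≤ t' := by
    have := Real.log_le_sub_one_of_pos ht'0
    linarith
  have e0 : FR x = x * l ^ 2 * s / t ^ 2 := rfl
  have e0' : FR (κ * x) = κ * x * l' ^ 2 * Real.log t' / t' ^ 2 := by
    unfold FR
    rw [e1]
  refine ⟨?_, ?_, ?_⟩
  · rw [e0, e0']
    calc κ / 32 * (x * l ^ 2 * s / t ^ 2) = κ * x * (l / 2) ^ 2 * (s / 2) / (2 * t) ^ 2 := by
          field_simp; ring
      _ ≤ κ * x * l' ^ 2 * Real.log t' / t' ^ 2 := by
          apply div_le_div₀ (by positivity) _ (by positivity) (pow_le_pow_left₀ ht'0.le e5 2)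
          apply mul_le_mul _ e6 (by positivity) (by positivity)
          apply mul_le_mul_of_nonneg_left _ (by positivity)
          exact pow_le_pow_left₀ (by positivity) e2 2
  · rw [e0, le_div_iff₀ (by positivity)]
    have h6 : t ^ 2 ≤ l ^ 2 := pow_le_pow_left₀ ht0.le htl 2
    calc x * t ^ 2 ≤ x * l ^ 2 := mul_le_mul_of_nonneg_left h6 hx0.le
      _ = x * l ^ 2 * 1 := by ring
      _ ≤ x * l ^ 2 * s := mul_le_mul_of_nonneg_left (by linarith) (by positivity)
  · rw [e0', div_le_iff₀ (by positivity)]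
    have h7 : l' ≤ κ * x := by
      rw [← e1]
      have := Real.log_le_sub_one_of_pos (show 0 < κ * x by positivity)
      linarith
    have h8 : Real.log t' ≤ t' ^ 2 := by
      have : 1 ≤ t' := by linarith
      nlinarith
    calc κ * x * l' ^ 2 * Real.log t' ≤ κ * x * (κ * x) ^ 2 * t' ^ 2 := by
          apply mul_le_mul _ h8 (by linarith) (by positivity)
          apply mul_le_mul_of_nonneg_left _ (by positivity)
          exact pow_le_pow_left₀ hl'0.le h7 2
      _ = (κ * x) ^ 3 * t' ^ 2 := by ring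

theorem win_scale (κ : ℝ) (hκ : 0 < κ) (K : ℕ) : ∀ᶠ x : ℝ in atTop,
    κ * x / (Real.log (κ * x)) ^ (K + 2) + 3 * Real.log (κ * x) + 3 ≤ x / (Real.log x) ^ K ∧
    κ * x / (Real.log (κ * x)) ^ (K + 2) ≤ κ * x / 2 := by
  have t1 := Real.tendsto_log_atTop
  have tκ : Tendsto (fun x : ℝ => κ * x) atTop atTop := tendsto_id.const_mul_atTop hκ
  have e1 : ∀ᶠ x : ℝ in atTop, (6 * Real.log x + 3) * 2 * (Real.log x) ^ K ≤ x := by
    have h := (isLittleO_log_rpow_rpow_atTop (s := 1) ((K : ℝ) + 1) (by norm_num)).bound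
      (show (0 : ℝ) < 1 / 18 by norm_num)
    filter_upwards [h, eventually_ge_atTop (1 : ℝ), t1.eventually_ge_atTop 1] with x h1 h2 h3
    rw [Real.rpow_one, show (K : ℝ) + 1 = ((K + 1 : ℕ) : ℝ) by push_cast; ring,
      Real.rpow_natCast, Real.norm_of_nonneg (by positivity), Real.norm_of_nonneg (by linarith)] at h1
    calc (6 * Real.log x + 3) * 2 * (Real.log x) ^ K ≤ (9 * Real.log x) * 2 * (Real.log x) ^ K := by
          apply mul_le_mul_of_nonneg_right _ (by positivity)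
          linarith
      _ = 18 * (Real.log x) ^ (K + 1) := by ring
      _ ≤ x := by linarith
  filter_upwards [t1.eventually_ge_atTop (2 * |Real.log κ| + 4),
    t1.eventually_ge_atTop (2 * κ * 2 ^ (K + 2)), e1, eventually_ge_atTop 1] with x h1 h2 h3 h4
  have hx0 : 0 < x := by linarith
  set l := Real.log x with hl
  have ha := le_abs_self (Real.log κ)
  have hb := neg_abs_le (Real.log κ)
  have hc := abs_nonneg (Real.log κ)
  have e1 : Real.log (κ * x) = Real.log κ + l := by rw [Real.log_mul hκ.ne' hx0.ne']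
  rw [e1]
  set l' := Real.log κ + l with hl'
  have e2 : l / 2 ≤ l' := by linarith
  have e3 : l' ≤ 2 * l := by linarith
  have hl0 : 4 ≤ l := by linarith
  have hl'0 : 2 ≤ l' := by linarith
  constructor
  · have e4 : κ * x / l' ^ (K + 2) ≤ x / l ^ K / 2 := by
      have e5 : (l / 2) ^ (K + 2) ≤ l' ^ (K + 2) := pow_le_pow_left₀ (by linarith) e2 _
      calc κ * x / l' ^ (K + 2) ≤ κ * x / (l / 2) ^ (K + 2) :=
            div_le_div_of_nonneg_left (by positivity) (by positivity) e5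
        _ = x / l ^ K / 2 * (2 * κ * 2 ^ (K + 2) / l ^ 2) := by
            rw [div_pow, pow_add l K 2]
            field_simp
        _ ≤ x / l ^ K / 2 * 1 := by
            apply mul_le_mul_of_nonneg_left _ (by positivity)
            rw [div_le_one (by positivity)]
            calc 2 * κ * 2 ^ (K + 2) ≤ l := h2
              _ ≤ l ^ 2 := le_self_pow₀ (by linarith) (by norm_num)
        _ = _ := mul_one _
    have e6 : 3 * l' + 3 ≤ x / l ^ K / 2 := by
      rw [div_div, le_div_iff₀ (by positivity)]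
      calc (3 * l' + 3) * (l ^ K * 2) ≤ (6 * l + 3) * (l ^ K * 2) := by
            apply mul_le_mul_of_nonneg_right _ (by positivity)
            linarith
        _ = (6 * l + 3) * 2 * l ^ K := by ring
        _ ≤ x := h3
    linarith
  · apply div_le_div_of_nonneg_left (by positivity) (by norm_num)
    calc (2 : ℝ) ≤ l' := hl'0
      _ ≤ l' ^ (K + 2) := le_self_pow₀ (by linarith) (by omega)

theorem mul_record (δ D : ℝ) (hδ : 0 < δ) (K₁ A : ℕ) :
    ∃ c : ℝ, 0 < c ∧ ∃ n₀ : ℕ, ∀ n : ℕ, n₀ ≤ n → ∀ q r K : ℕ,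
      (2 : ℝ) ^ (δ * n) ≤ q → (q : ℝ) ≤ 2 ^ (D * n) → (2 : ℝ) ^ (δ * n) ≤ K →
      (((range K).filter (fun k => ¬ ∃ a b : ℕ, q * k + r < a ∧
        (b : ℝ) ≤ ((q * k + r : ℕ) : ℝ) + Real.exp ((n : ℝ) / (Real.log n) ^ K₁) ∧
        c * (n * (Real.log n) ^ 2 * Real.log (Real.log (Real.log n)) /
          (Real.log (Real.log n)) ^ 2) ≤ (b : ℝ) - a ∧
        ∀ m ∈ Icc a b, ¬ m.Prime)).card : ℝ) ≤ K / (n : ℝ) ^ A := by
  obtain ⟨c₁, hc₁, hc₁1, l₀, hL₀⟩ := blocksR (K₁ + 1) (A + 1)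
  set κ : ℝ := δ / 2 with hκ
  have hκ0 : 0 < κ := by positivity
  refine ⟨c₁ * κ / 64, by positivity, ?_⟩
  have e1 : ∀ᶠ x : ℝ in atTop, 1 ≤ κ * x :=
    (tendsto_id.const_mul_atTop hκ0).eventually_ge_atTop 1
  have e1' : ∀ᶠ x : ℝ in atTop, l₀ ≤ Real.log (κ * x) :=
    (Real.tendsto_log_atTop.comp (tendsto_id.const_mul_atTop hκ0)).eventually_ge_atTop l₀
  have e2 : ∀ᶠ x : ℝ in atTop, |D| ≤ κ ^ 9 * x :=
    (tendsto_id.const_mul_atTop (by positivity)).eventually_ge_atTop _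
  have e3 := FR_scale κ hκ0
  have e4 := win_scale κ hκ0 K₁
  have e6 : ∀ᶠ x : ℝ in atTop, ((A : ℝ) + 1) * Real.log x + 3 ≤ x ^ (1 / 2 : ℝ) :=
    ev_poly _ _ (by norm_num) 3 (by norm_num)
  have e7 : ∀ᶠ x : ℝ in atTop, 10 / δ ≤ x ^ (1 / 2 : ℝ) := ev_rpow_ge _ _ (by norm_num)
  have e9 : ∀ᶠ x : ℝ in atTop, 8 / κ ^ (A + 1) ≤ x := eventually_ge_atTop _
  have e10 : ∀ᶠ x : ℝ in atTop, 128 / (c₁ * κ) ≤ x := eventually_ge_atTop _
  have e11 : ∀ᶠ x : ℝ in atTop, 1 ≤ Real.log x := Real.tendsto_log_atTop.eventually_ge_atTop 1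
  have e12 : ∀ᶠ x : ℝ in atTop, 1 ≤ x := eventually_ge_atTop _
  have e13 : ∀ᶠ x : ℝ in atTop, 2 ≤ Real.log (κ * x) :=
    (Real.tendsto_log_atTop.comp (tendsto_id.const_mul_atTop hκ0)).eventually_ge_atTop 2
  obtain ⟨n₀, hn₀⟩ := eventually_atTop.1 (ev_nat (e1.and (e1'.and (e2.and (e3.and (e4.and
    (e6.and (e7.and (e9.and (e10.and (e11.and (e12.and e13))))))))))))
  refine ⟨n₀, fun n hn q r K hq1 hq2 hK1 => ?_⟩
  obtain ⟨g1, g1', g2, g3, g4, g6, g7, g9, g10, g11, g12, g13⟩ := hn₀ n hn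
  set x : ℝ := (n : ℝ) with hx
  have hx1 : 1 ≤ x := g12
  have hx0 : 0 < x := by linarith
  set lx : ℝ := Real.log x with hlx
  set L : ℝ := κ * x with hL
  have hL1 : 1 ≤ L := g1
  have hLpos : 0 < L := by linarith
  have h2exp : ∀ y : ℝ, (2 : ℝ) ^ y = Real.exp (Real.log 2 * y) := by
    intro y
    rw [Real.rpow_def_of_pos (by norm_num)]
  have hlog2a := Real.log_two_gt_d9
  have hlog2b := Real.log_two_lt_d9
  set t : ℝ := L / (Real.log L) ^ (K₁ + 2) with ht
  have hlogL : 0 < Real.log L := by linarith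
  have ht0 : 0 ≤ t := by positivity
  set Y : ℕ := ⌊Real.exp t⌋₊ with hY
  have hY1 : (Y : ℝ) ≤ Real.exp t := Nat.floor_le (Real.exp_pos _).le
  have hY2 : Real.exp t ≤ Y + 1 := (Nat.lt_floor_add_one _).le
  have hL3 : L ^ 3 = Real.exp (3 * Real.log L) := by
    rw [mul_comm, Real.exp_mul, Real.exp_log hLpos]
    norm_num
  have hYx : (Y : ℝ) + L ^ 3 + 1 ≤ Real.exp (x / lx ^ K₁) := by
    have h1 : Real.exp (t + 3 * Real.log L + 3) ≤ Real.exp (x / lx ^ K₁) := Real.exp_le_exp.mpr g4.1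
    rw [Real.exp_add, Real.exp_add, ← hL3] at h1
    have h2 : (8 : ℝ) ≤ Real.exp 3 := by
      have h4 : (2 : ℝ) ≤ Real.exp 1 := by have := Real.exp_one_gt_d9; linarith
      have h5 : Real.exp 3 = (Real.exp 1) ^ 3 := by rw [← Real.exp_nat_mul]; norm_num
      rw [h5]
      calc (8 : ℝ) = 2 ^ 3 := by norm_num
        _ ≤ (Real.exp 1) ^ 3 := pow_le_pow_left₀ (by norm_num) h4 3
    have h3 : 1 ≤ Real.exp t := Real.one_le_exp ht0
    have h5 : 1 ≤ L ^ 3 := one_le_pow₀ hL1
    have h6 : Real.exp t * L ^ 3 * 8 ≤ Real.exp t * L ^ 3 * Real.exp 3 :=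
      mul_le_mul_of_nonneg_left h2 (by positivity)
    have h7 : Real.exp t ≤ Real.exp t * L ^ 3 := le_mul_of_one_le_right (Real.exp_pos _).le h5
    have h8 : L ^ 3 ≤ Real.exp t * L ^ 3 := le_mul_of_one_le_left (by positivity) h3
    linarith
  have hYL : (Y : ℝ) ≤ Real.exp (L / 2) := hY1.trans (Real.exp_le_exp.mpr g4.2)
  have hδq : Real.exp (L / 2) ≤ (2 : ℝ) ^ (δ * x) := by
    rw [h2exp]
    apply Real.exp_le_exp.mpr
    have h1 : L = δ * x / 2 := by rw [hL, hκ]; ring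
    have : 0 < δ * x := by positivity
    rw [h1]
    nlinarith
  have hYq : Y ≤ q := by
    have : (Y : ℝ) ≤ q := hYL.trans (hδq.trans hq1)
    exact_mod_cast this
  have hq0 : (0 : ℝ) < q := lt_of_lt_of_le (by positivity) hq1
  have hq0' : 1 ≤ q := by exact_mod_cast hq0
  have hlogq : Real.log ((q * 1 : ℕ) : ℝ) ≤ L ^ 9 := by
    rw [mul_one]
    have h1 : Real.log q ≤ Real.log ((2 : ℝ) ^ (D * x)) := Real.log_le_log hq0 hq2
    rw [Real.log_rpow (by norm_num)] at h1
    have h2 : D * x * Real.log 2 ≤ |D| * x := by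
      have h3 : D * x * Real.log 2 ≤ |D| * x * Real.log 2 := by
        apply mul_le_mul_of_nonneg_right _ (by linarith)
        exact mul_le_mul_of_nonneg_right (le_abs_self D) hx0.le
      have h4 : 0 ≤ |D| * x := by positivity
      nlinarith
    have h3 : |D| * x ≤ κ ^ 9 * x * x := mul_le_mul_of_nonneg_right g2 hx0.le
    have h4 : κ ^ 9 * x * x ≤ L ^ 9 := by
      rw [hL, mul_pow]
      have h5 : x ^ 2 ≤ x ^ 9 := pow_le_pow_right₀ hx1 (by norm_num)
      have h6 : κ ^ 9 * x ^ 2 ≤ κ ^ 9 * x ^ 9 := mul_le_mul_of_nonneg_left h5 (by positivity)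
      calc κ ^ 9 * x * x = κ ^ 9 * x ^ 2 := by ring
        _ ≤ _ := h6
    linarith
  -- the length
  set N : ℕ := ⌊c₁ * FR L⌋₊ with hN
  have hFRx : 0 < FR x := by linarith [g3.2.1]
  have hFRL : 0 < FR L := lt_of_lt_of_le (by positivity) g3.1
  have hN1 : (N : ℝ) ≤ c₁ * FR L := Nat.floor_le (by positivity)
  have hN2 : c₁ * FR L < N + 1 := Nat.lt_floor_add_one _
  have hNx : (N : ℝ) ≤ L ^ 3 := by
    calc (N : ℝ) ≤ c₁ * FR L := hN1
      _ ≤ 1 * FR L := mul_le_mul_of_nonneg_right hc₁1 hFRL.le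
      _ ≤ L ^ 3 := by rw [one_mul]; exact g3.2.2
  have hlen : c₁ * κ / 64 * (x * lx ^ 2 * Real.log (Real.log lx) / (Real.log lx) ^ 2) ≤ (N : ℝ) - 1 := by
    have h0 : x * lx ^ 2 * Real.log (Real.log lx) / (Real.log lx) ^ 2 = FR x := rfl
    rw [h0]
    have h1 : c₁ * (κ / 32 * FR x) ≤ c₁ * FR L := mul_le_mul_of_nonneg_left g3.1 hc₁.le
    have h3 : 128 ≤ c₁ * κ * x := by
      rw [div_le_iff₀ (by positivity)] at g10
      linarith
    have h4 : c₁ * κ * x ≤ c₁ * κ * FR x := mul_le_mul_of_nonneg_left g3.2.1 (by positivity)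
    linarith
  -- the threshold
  have hK0 : (0 : ℝ) < K := lt_of_lt_of_le (by positivity) hK1
  have hxA : 0 < x ^ A := by positivity
  have hKT : Real.exp L ≤ (K : ℝ) / (8 * x ^ A) := by
    rw [le_div_iff₀ (by positivity)]
    refine le_trans ?_ hK1
    have h1 : x ^ A = Real.exp ((A : ℝ) * lx) := by
      rw [hlx, mul_comm, Real.exp_mul, Real.exp_log hx0, Real.rpow_natCast]
    have h2 : (8 : ℝ) ≤ Real.exp 3 := by
      have h4 : (2 : ℝ) ≤ Real.exp 1 := by have := Real.exp_one_gt_d9; linarith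
      have h5 : Real.exp 3 = (Real.exp 1) ^ 3 := by rw [← Real.exp_nat_mul]; norm_num
      rw [h5]
      calc (8 : ℝ) = 2 ^ 3 := by norm_num
        _ ≤ (Real.exp 1) ^ 3 := pow_le_pow_left₀ (by norm_num) h4 3
    rw [h2exp, h1]
    calc Real.exp L * (8 * Real.exp ((A : ℝ) * lx)) ≤
          Real.exp L * (Real.exp 3 * Real.exp ((A : ℝ) * lx)) := by
          apply mul_le_mul_of_nonneg_left _ (Real.exp_pos _).le
          exact mul_le_mul_of_nonneg_right h2 (Real.exp_pos _).le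
      _ = Real.exp (L + (3 + (A : ℝ) * lx)) := by rw [Real.exp_add, Real.exp_add]
      _ ≤ _ := by
          apply Real.exp_le_exp.mpr
          have h3 : x = x ^ (1 / 2 : ℝ) * x ^ (1 / 2 : ℝ) := by
            rw [← Real.rpow_add hx0]; norm_num
          have h4 : 0 < x ^ (1 / 2 : ℝ) := by positivity
          have h5 : 10 / δ * x ^ (1 / 2 : ℝ) ≤ x := by
            calc 10 / δ * x ^ (1 / 2 : ℝ) ≤ x ^ (1 / 2 : ℝ) * x ^ (1 / 2 : ℝ) :=
                  mul_le_mul_of_nonneg_right g7 h4.le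
              _ = x := h3.symm
          have h6 : 10 * x ^ (1 / 2 : ℝ) ≤ δ * x := by
            have := mul_le_mul_of_nonneg_left h5 hδ.le
            have e : δ * (10 / δ * x ^ (1 / 2 : ℝ)) = 10 * x ^ (1 / 2 : ℝ) := by field_simp
            linarith
          have h7 : L = δ * x / 2 := by rw [hL, hκ]; ring
          have h8 : 0 < δ * x := by positivity
          rw [h7]
          nlinarith
  set T : ℕ := ⌈(K : ℝ) / (8 * x ^ A)⌉₊ with hT
  have hT1 : (K : ℝ) / (8 * x ^ A) ≤ T := Nat.le_ceil _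
  have hT2 : (T : ℝ) < (K : ℝ) / (8 * x ^ A) + 1 := Nat.ceil_lt_add_one (by positivity)
  have hexpL : 2 < Real.exp L := by
    have := Real.exp_one_gt_d9
    have := Real.exp_le_exp.mpr hL1
    linarith
  have hT3 : 3 ≤ T := by
    have : (2 : ℝ) < T := by linarith
    have : 2 < T := by exact_mod_cast this
    omega
  have hseg := dyadic_seg (fun k => ¬ ∃ a b : ℕ, q * k + r < a ∧
        (b : ℝ) ≤ ((q * k + r : ℕ) : ℝ) + Real.exp (x / lx ^ K₁) ∧
        c₁ * κ / 64 * (x * lx ^ 2 * Real.log (Real.log lx) / (Real.log lx) ^ 2) ≤ (b : ℝ) - a ∧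
        ∀ m ∈ Icc a b, ¬ m.Prime) T (1 / L ^ (A + 1)) (by positivity) hT3 K (by
    intro J hJ1 hJ2
    have hJT : (T : ℝ) ≤ J := by exact_mod_cast hJ1
    have h1 := hL₀ L hLpos g1' r q J Y N hq0' hlogq (by linarith) hYq hY2 hYL hN1
    refine le_trans ?_ (h1.trans (le_of_eq (by ring)))
    apply Nat.cast_le.mpr
    apply card_le_card
    intro j hj
    rw [mem_filter] at hj ⊢
    refine ⟨hj.1, ?_⟩
    rintro ⟨m, hm1, hm2, hm3⟩
    apply hj.2
    refine ⟨m + 1 + r, m + N + r, by omega, ?_, ?_, ?_⟩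
    · have h2 : (m : ℝ) ≤ q * j + Y := by exact_mod_cast hm2.le
      push_cast
      linarith
    · refine hlen.trans (le_of_eq ?_)
      push_cast
      ring
    · intro m' hm'
      rw [mem_Icc] at hm'
      have h3 := hm3 (m' - r - m) (by rw [mem_Icc]; omega)
      have h4 : 1 * (m + (m' - r - m)) + r = m' := by omega
      rwa [h4] at h3)
  refine hseg.trans ?_
  have h1 : 2 * (1 / L ^ (A + 1)) * K ≤ 1 / 4 * (K / x ^ A) := by
    have h2 : L ^ (A + 1) = κ ^ (A + 1) * x * x ^ A := by rw [hL, mul_pow]; ring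
    rw [h2]
    have h3 : 8 ≤ κ ^ (A + 1) * x := by
      rw [div_le_iff₀ (by positivity)] at g9
      linarith
    have h4 : 2 * (1 / (κ ^ (A + 1) * x * x ^ A)) * K = 2 / (κ ^ (A + 1) * x) * (K / x ^ A) := by
      field_simp
    rw [h4]
    apply mul_le_mul_of_nonneg_right _ (by positivity)
    rw [div_le_div_iff₀ (by positivity) (by norm_num)]
    linarith
  have h2 : 2 < (K : ℝ) / (8 * x ^ A) := by linarith
  have h3 : (K : ℝ) / (8 * x ^ A) = 1 / 8 * (K / x ^ A) := by field_simp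
  rw [h3] at hT2 h2
  linarith

end Pool.Agent.K7.H60.SQ
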