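import Pool.Agent.K7.H60.SQ.Bk
import Pool.Agent.K7.H60.TL.RB
import Pool.Agent.K7.H60.SQ.PN

/-!
Runs of Rankin's length in almost all sampled blocks.
-/

set_option autoImplicit false
set_option linter.unusedSectionVars false

namespace Pool.Agent.K7.H60.SQ

open Finset Filter Pool.Agent.H256R2.SC Pool.Agent.K7.H60.TL

open scoped Classical

theorem blocksR (K A : ℕ) : ∃ c : ℝ, 0 < c ∧ c ≤ 1 ∧ ∃ l₀ : ℝ, ∀ L : ℝ, 0 < L → l₀ ≤ Real.log L →
    ∀ r q J0 Y N' : ℕ, 1 ≤ q → Real.log ((q * 1 : ℕ) : ℝ) ≤ L ^ 9 → Real.exp L ≤ J0 → Y ≤ q →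
      Real.exp (L / (Real.log L) ^ (K + 1)) ≤ Y + 1 → (Y : ℝ) ≤ Real.exp (L / 2) →
      (N' : ℝ) ≤ c * (L * (Real.log L) ^ 2 * Real.log (Real.log (Real.log L)) /
        (Real.log (Real.log L)) ^ 2) →
      (((Ico J0 (2 * J0)).filter (fun j => ¬ ∃ n, q * j ≤ n ∧ n < q * j + Y ∧
        ∀ k ∈ Icc 1 N', ¬ (1 * (n + k) + r).Prime)).card : ℝ) ≤ J0 / L ^ A := by
  obtain ⟨c, C5, C6, hc, hC5, hC6, L₁, hL₁1, hL₁⟩ := runsG (1 / 2) (by norm_num) A
  obtain ⟨C₀, hC₀, y₀, hsurv⟩ := survivorsE (K + 5) (by omega)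
  set c₁ : ℝ := min 1 (c / (8 * C₀)) with hc₁
  have hc₁0 : 0 < c₁ := lt_min one_pos (by positivity)
  have hc₁1 : c₁ ≤ 1 := min_le_left _ _
  have hc₁2 : c₁ ≤ c / (8 * C₀) := min_le_right _ _
  obtain ⟨l₀, hl₀⟩ := evB K C5 C6 y₀ c₁ hc₁0
  refine ⟨c₁, hc₁0, hc₁1, max (max l₀ (Real.log L₁)) (4 * ((A : ℝ) + 10) + 10), ?_⟩
  intro L hLpos hlm r q J0 Y N' hq hlq hJL hYq hYl hYL2 hN'
  set l : ℝ := Real.log L with hl
  have hLl : L = Real.exp l := (Real.exp_log hLpos).symm
  have hll : l₀ ≤ l := (le_max_left _ _).trans ((le_max_left _ _).trans hlm)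
  have hX1 : L₁ ≤ L := by
    have h1 : Real.log L₁ ≤ l := (le_max_right _ _).trans ((le_max_left _ _).trans hlm)
    rw [hl] at h1
    exact (Real.log_le_log_iff (by linarith) hLpos).1 h1
  have hlA : 4 * ((A : ℝ) + 10) + 10 ≤ l := (le_max_right _ _).trans hlm
  obtain ⟨f1, f2, f3, f4, f5, f6, f7, f8, f9⟩ := hl₀ l hll
  set t : ℝ := Real.log l with ht
  set s : ℝ := Real.log t with hs
  have hl0 : 0 < l := by linarith
  have hs0 : 0 < s := by linarith
  have ht1 : 1 ≤ t := by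
    by_contra hcc
    push Not at hcc
    by_cases h0 : 0 ≤ t
    · have := Real.log_nonpos h0 hcc.le
      linarith
    · have h1 : 0 < l := hl0
      have h2 : 0 ≤ Real.log l := Real.log_nonneg (by linarith)
      exact h0 h2
  have ht0 : 0 < t := by linarith
  have hst : s ≤ t := by
    have := Real.log_le_sub_one_of_pos ht0
    linarith
  have htl : t ≤ l := by
    have := Real.log_le_sub_one_of_pos hl0
    linarith
  have hlL : l ≤ L := by
    have := Real.add_one_le_exp l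
    linarith
  have hL10 : 10 ≤ L := by linarith
  -- powers of `l` against `L`
  have hpw : (l ^ (K + 3)) ^ 2 ≤ L := by
    calc (l ^ (K + 3)) ^ 2 ≤ (Real.exp (l / 2)) ^ 2 := pow_le_pow_left₀ (by positivity) f5 2
      _ = L := by rw [← Real.exp_nat_mul, hLl]; congr 1; push_cast; ring
  have hl1 : 1 ≤ l := by linarith
  have hlK1 : 1 ≤ l ^ (K + 1) := one_le_pow₀ hl1
  have hlK2 : 1 ≤ l ^ (K + 2) := one_le_pow₀ hl1
  have hlK3 : 1 ≤ l ^ (K + 3) := one_le_pow₀ hl1
  have hp2 : 10 * l ^ (K + 2) ≤ L := by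
    calc 10 * l ^ (K + 2) ≤ l * l ^ (K + 2) := mul_le_mul_of_nonneg_right f4 (by positivity)
      _ = l ^ (K + 3) := by ring
      _ ≤ (l ^ (K + 3)) ^ 2 := le_self_pow₀ hlK3 (by norm_num)
      _ ≤ L := hpw
  -- the primes
  set y : ℕ := ⌊L / l ^ (K + 2)⌋₊ with hy
  have hy1 : (y : ℝ) ≤ L / l ^ (K + 2) := Nat.floor_le (by positivity)
  have hy2 : L / l ^ (K + 2) < y + 1 := Nat.lt_floor_add_one _
  have hy3 : L / (2 * l ^ (K + 2)) ≤ y := by
    have h1 : 10 ≤ L / l ^ (K + 2) := by rw [le_div_iff₀ (by positivity)]; exact hp2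
    have h2 : L / (2 * l ^ (K + 2)) = (L / l ^ (K + 2)) / 2 := by
      rw [div_div, mul_comm]
    linarith
  have hyL : (y : ℝ) ≤ L := hy1.trans (div_le_self hLpos.le hlK2)
  have hypos : (0 : ℝ) < y := lt_of_lt_of_le (by positivity) hy3
  have hlogy1 : l / 2 ≤ Real.log y := by
    have h1 : Real.log (L / (2 * l ^ (K + 2))) ≤ Real.log y := Real.log_le_log (by positivity) hy3
    rw [Real.log_div hLpos.ne' (by positivity), Real.log_mul (by norm_num) (by positivity),
      Real.log_pow] at h1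
    push_cast at h1
    have h2 := Real.log_two_lt_d9
    linarith
  have hlogy2 : Real.log y ≤ l := Real.log_le_log hypos hyL
  have hlogy0 : 0 < Real.log y := by linarith
  have hll1 : t / 2 ≤ Real.log (Real.log y) := by
    have h1 : Real.log (l / 2) ≤ Real.log (Real.log y) := Real.log_le_log (by linarith) hlogy1
    rw [Real.log_div hl0.ne' (by norm_num)] at h1
    have h2 := Real.log_two_lt_d9
    linarith
  have hll2 : Real.log (Real.log y) ≤ t := Real.log_le_log hlogy0 hlogy2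
  have hll0 : 0 < Real.log (Real.log y) := by linarith
  have hlll : s / 2 ≤ Real.log (Real.log (Real.log y)) := by
    have h1 : Real.log (t / 2) ≤ Real.log (Real.log (Real.log y)) :=
      Real.log_le_log (by linarith) hll1
    rw [Real.log_div ht0.ne' (by norm_num)] at h1
    have h2 := Real.log_two_lt_d9
    linarith
  have hyy₀ : y₀ ≤ y := by
    refine f9.trans (le_trans ?_ hy3)
    rw [le_div_iff₀ (by positivity)]
    have h1 : Real.exp (l / 2) * Real.exp (l / 2) = L := by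
      rw [← Real.exp_add, hLl]; congr 1; ring
    rw [← h1]
    apply mul_le_mul_of_nonneg_left _ (Real.exp_pos _).le
    calc 2 * l ^ (K + 2) ≤ l * l ^ (K + 2) := mul_le_mul_of_nonneg_right (by linarith) (by positivity)
      _ = l ^ (K + 3) := by ring
      _ ≤ _ := f5
  -- the length
  set F : ℝ := L * l ^ 2 * s / t ^ 2 with hF
  have hF0 : 0 < F := by positivity
  have hF1 : F ≤ L * l ^ 2 := by
    rw [hF, div_le_iff₀ (by positivity)]
    apply mul_le_mul_of_nonneg_left _ (by positivity)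
    calc s ≤ t := hst
      _ ≤ t ^ 2 := le_self_pow₀ ht1 (by norm_num)
  have hF2 : 8 * (L * l) ≤ c₁ * F := by
    rw [hF, ← mul_div_assoc, le_div_iff₀ (by positivity)]
    have h1 : 8 * t ^ 2 ≤ c₁ * l := by linarith
    calc 8 * (L * l) * t ^ 2 = (L * l) * (8 * t ^ 2) := by ring
      _ ≤ (L * l) * (c₁ * l) := mul_le_mul_of_nonneg_left h1 (by positivity)
      _ = c₁ * (L * l ^ 2) * 1 := by ring
      _ ≤ c₁ * (L * l ^ 2) * s := mul_le_mul_of_nonneg_left (by linarith) (by positivity)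
      _ = _ := by ring
  set N : ℕ := ⌊c₁ * F⌋₊ with hN
  have hN1 : (N : ℝ) ≤ c₁ * F := Nat.floor_le (by positivity)
  have hN2 : c₁ * F < N + 1 := Nat.lt_floor_add_one _
  have hNLl : (N : ℝ) ≤ L * l ^ 2 := by
    calc (N : ℝ) ≤ c₁ * F := hN1
      _ ≤ 1 * F := mul_le_mul_of_nonneg_right hc₁1 hF0.le
      _ ≤ L * l ^ 2 := by rw [one_mul]; exact hF1
  have hLl1 : L ≤ L * l := le_mul_of_one_le_right hLpos.le hl1
  have hyN : y ≤ N := by
    have : (y : ℝ) ≤ N := by linarith
    exact_mod_cast this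
  have hNy : (N : ℝ) ≤ y * (Real.log y) ^ (K + 5) := by
    calc (N : ℝ) ≤ L * l ^ 2 := hNLl
      _ ≤ L / (2 * l ^ (K + 2)) * (l / 2) ^ (K + 5) := by
          rw [div_mul_eq_mul_div, le_div_iff₀ (by positivity), div_pow, ← mul_div_assoc,
            le_div_iff₀ (by positivity)]
          have h1 : (2 : ℝ) ^ (K + 6) ≤ l :=
            (pow_le_pow_right₀ (by norm_num) (by omega)).trans f1
          calc L * l ^ 2 * (2 * l ^ (K + 2)) * 2 ^ (K + 5) = L * l ^ (K + 4) * 2 ^ (K + 6) := by ring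
            _ ≤ L * l ^ (K + 4) * l := mul_le_mul_of_nonneg_left h1 (by positivity)
            _ = L * l ^ (K + 5) := by ring
      _ ≤ y * (Real.log y) ^ (K + 5) := by
          apply mul_le_mul hy3 _ (by positivity) hypos.le
          exact pow_le_pow_left₀ (by positivity) hlogy1 _
  obtain ⟨e, he⟩ := hsurv y hyy₀ N hyN hNy
  set P0 : Finset ℕ := (Icc 1 y).filter Nat.Prime with hP0
  have hcard : (((Icc 1 N).filter (fun k => ∀ p ∈ P0, ¬ k ≡ e p [MOD p])).card : ℝ) ≤
      c * L := by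
    have h1 : (((Icc 1 N).filter (fun k => ∀ p ∈ P0, ¬ k ≡ e p [MOD p])).card : ℝ) ≤
        (((Icc 1 N).filter (fun k => ∀ p : ℕ, p.Prime → p ≤ y → ¬ k ≡ e p [MOD p])).card : ℝ) := by
      apply Nat.cast_le.mpr
      apply card_le_card
      intro k hk
      have hk' := Finset.mem_filter.1 hk
      refine Finset.mem_filter.2 ⟨hk'.1, fun p hp hpy => hk'.2 p ?_⟩
      exact mem_filter.2 ⟨mem_Icc.2 ⟨hp.pos, hpy⟩, hp⟩
    refine h1.trans (he.trans ?_)
    have h2 : C₀ * N * (Real.log (Real.log y)) ^ 2 /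
        ((Real.log y) ^ 2 * Real.log (Real.log (Real.log y))) ≤
        C₀ * (c₁ * F) * t ^ 2 / ((l / 2) ^ 2 * (s / 2)) := by
      apply div_le_div₀ (by positivity) _ (by positivity) _
      · apply mul_le_mul _ (pow_le_pow_left₀ hll0.le hll2 2) (by positivity) (by positivity)
        exact mul_le_mul_of_nonneg_left hN1 hC₀.le
      · exact mul_le_mul (pow_le_pow_left₀ (by positivity) hlogy1 2) hlll (by positivity)
          (by positivity)
    refine h2.trans ?_
    have h3 : C₀ * (c₁ * F) * t ^ 2 / ((l / 2) ^ 2 * (s / 2)) = c₁ * (8 * C₀) * L := by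
      rw [hF]; field_simp; ring
    rw [h3]
    apply mul_le_mul_of_nonneg_right _ hLpos.le
    calc c₁ * (8 * C₀) ≤ c / (8 * C₀) * (8 * C₀) := mul_le_mul_of_nonneg_right hc₁2 (by positivity)
      _ = c := by field_simp
  have hN3 : (N : ℝ) + 1 ≤ L ^ 4 := by
    have h1 : L * l ^ 2 ≤ L * L ^ 2 :=
      mul_le_mul_of_nonneg_left (pow_le_pow_left₀ hl0.le hlL 2) hLpos.le
    have h2 : L * L ^ 2 = L ^ 3 := by ring
    have h3 : 10 * L ^ 3 ≤ L ^ 4 := by
      calc 10 * L ^ 3 ≤ L * L ^ 3 := mul_le_mul_of_nonneg_right hL10 (by positivity)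
        _ = L ^ 4 := by ring
    have h4 : 1 ≤ L ^ 3 := one_le_pow₀ (by linarith)
    linarith
  have hL4 : L ^ 4 = Real.exp (4 * l) := by
    rw [hLl, ← Real.exp_nat_mul]; push_cast; rfl
  set M : ℝ := L / l ^ (K + 1) with hM
  have hM1 : 10 * l ≤ M := by
    rw [hM, le_div_iff₀ (by positivity)]
    calc 10 * l * l ^ (K + 1) = 10 * l ^ (K + 2) := by ring
      _ ≤ L := hp2
  have hM2 : L / l ^ (K + 2) = M / l := by
    rw [hM, div_div]; congr 1
  have hM3 : (C5 + 2) * (M / l) ≤ M / 2 := by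
    rw [← mul_div_assoc, div_le_div_iff₀ hl0 (by norm_num)]
    have hM0 : 0 ≤ M := by linarith
    calc (C5 + 2) * M * 2 = M * (2 * (C5 + 2)) := by ring
      _ ≤ M * l := mul_le_mul_of_nonneg_left f3 hM0
  have hM00 : 0 ≤ M := by linarith
  have hM4 : M / 2 + 4 * l + 1 ≤ M := by linarith
  have hwbig : 3 ≤ L ^ (A + 10) := by
    have : L ≤ L ^ (A + 10) := le_self_pow₀ (by linarith) (by omega)
    linarith
  have hJ0 : 1 ≤ J0 := by
    have h1 : (0 : ℝ) < J0 := (Real.exp_pos _).trans_le hJL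
    exact_mod_cast h1
  have hprimo : ((∏ p ∈ P0, p : ℕ) : ℝ) ≤ Real.exp (2 * (M / l)) := by
    refine (primorial_prod y).trans (Real.exp_le_exp.mpr ?_)
    rw [← hM2]
    linarith
  have hWe : ((∏ p ∈ P0, p : ℕ) : ℝ) * (N + 1) ≤ Real.exp (2 * (M / l) + 4 * l) := by
    rw [Real.exp_add]
    apply mul_le_mul hprimo _ (by positivity) (Real.exp_pos _).le
    rw [← hL4]; exact hN3
  have hNN' : N' ≤ N := by
    rw [hN]
    exact Nat.le_floor hN'
  have hmain := hL₁ L hX1 P0 e 1 r N Y q J0 (l ^ (K + 3))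
    (by
      intro p hp
      have hp1 := (mem_filter.1 hp)
      refine ⟨hp1.2, fun hd => ?_, ?_⟩
      · exact hp1.2.one_lt.ne' (Nat.dvd_one.1 hd)
      · have h1 : (p : ℝ) ≤ y := by exact_mod_cast (mem_Icc.1 hp1.1).2
        calc (p : ℝ) ≤ L := by linarith
          _ ≤ L ^ (A + 10) := le_self_pow₀ (by linarith) (by omega))
    le_rfl hq hJ0 hYq
    (hN3.trans (pow_le_pow_right₀ (by linarith) (by omega)))
    hcard
    (by
      have h1 := card_large_primes (q * 1) (Nat.mul_pos hq one_pos) (L ^ (A + 10)) hwbig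
      have h2 : 2 * L ^ 9 ≤ L ^ (A + 10) := by
        calc 2 * L ^ 9 ≤ L * L ^ 9 := mul_le_mul_of_nonneg_right (by linarith) (by positivity)
          _ = L ^ 10 := by ring
          _ ≤ L ^ (A + 10) := pow_le_pow_right₀ (by linarith) (by omega)
      linarith)
    (by
      calc C6 * l ≤ l * l := mul_le_mul_of_nonneg_right f2 hl0.le
        _ = l ^ 2 := by ring
        _ ≤ l ^ (K + 3) := pow_le_pow_right₀ hl1 (by omega))
    (by
      have h1 : L ^ (1 - 1 / 2 : ℝ) = Real.exp (l / 2) := by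
        rw [hLl, ← Real.exp_mul]; congr 1; ring
      rw [h1]; exact f5)
    (by
      have h1 : C5 * l * (L / l ^ (K + 3)) = C5 * (M / l) := by
        rw [← hM2]
        field_simp
        ring
      rw [h1]
      have h4 : Real.exp (M / 2 + 4 * l) ≤ Y := by
        have h5 : Real.exp (M / 2 + 4 * l + 1) ≤ Real.exp M := Real.exp_le_exp.mpr hM4
        rw [Real.exp_add] at h5
        have h6 : 1 ≤ Real.exp (M / 2 + 4 * l) := Real.one_le_exp (by positivity)
        have h7 : (2 : ℝ) ≤ Real.exp 1 := by have := Real.exp_one_gt_d9; linarith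
        have h8 := mul_le_mul_of_nonneg_left h7 (by linarith : 0 ≤ Real.exp (M / 2 + 4 * l))
        linarith
      refine le_trans ?_ h4
      calc ((∏ p ∈ P0, p : ℕ) : ℝ) * (N + 1) * Real.exp (C5 * (M / l)) ≤
            Real.exp (2 * (M / l) + 4 * l) * Real.exp (C5 * (M / l)) :=
            mul_le_mul_of_nonneg_right hWe (Real.exp_pos _).le
        _ = Real.exp ((C5 + 2) * (M / l) + 4 * l) := by
            rw [← Real.exp_add]; congr 1; ring
        _ ≤ _ := Real.exp_le_exp.mpr (by linarith))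
    hYL2
    (by
      refine le_trans ?_ hJL
      calc ((∏ p ∈ P0, p : ℕ) : ℝ) * (N + 1) * Real.exp (L / 2) ≤
            Real.exp (2 * (M / l) + 4 * l) * Real.exp (L / 2) :=
            mul_le_mul_of_nonneg_right hWe (Real.exp_pos _).le
        _ = Real.exp (2 * (M / l) + 4 * l + L / 2) := by rw [← Real.exp_add]
        _ ≤ _ := by
            apply Real.exp_le_exp.mpr
            have h1 : 2 * (M / l) ≤ (C5 + 2) * (M / l) := by
              apply mul_le_mul_of_nonneg_right (by linarith) (by positivity)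
            have h2 : M ≤ L / 2 := by
              rw [hM, div_le_div_iff₀ (by positivity) (by norm_num)]
              apply mul_le_mul_of_nonneg_left _ hLpos.le
              calc (2 : ℝ) ≤ l := by linarith
                _ ≤ l ^ (K + 1) := le_self_pow₀ hl1 (by omega)
            linarith)
    (by
      have h1 : L ^ (A + 10) = Real.exp (((A : ℝ) + 10) * l) := by
        rw [hLl, ← Real.exp_nat_mul]; push_cast; rfl
      rw [h1]
      apply Real.exp_lt_exp.mpr
      have h2 : l ^ 2 / 2 < L := by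
        rw [hLl]
        have := Real.quadratic_le_exp_of_nonneg hl0.le
        linarith
      nlinarith)
  refine le_trans ?_ hmain
  apply Nat.cast_le.mpr
  apply card_le_card
  intro j hj
  rw [mem_filter] at hj ⊢
  refine ⟨hj.1, ?_⟩
  rintro ⟨n, hn1, hn2, hn3⟩
  apply hj.2
  refine ⟨n, hn1, hn2, fun k hk => hn3 k ?_⟩
  rw [mem_Icc] at hk ⊢
  omega

end Pool.Agent.K7.H60.SQ
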