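import Pool.Agent.K7.H60.SQ.En
import Pool.Agent.H256R2.SC.G3
import Pool.Agent.H256R2.SC.R

/-!
From the engine for sampled blocks to runs of composite values of a linear polynomial.
-/

set_option autoImplicit false
set_option linter.unusedSectionVars false

namespace Pool.Agent.K7.H60.SQ

open Finset Filter Pool.Agent.H256R2.SC Pool.Agent.K7.H60.TL

open scoped Classical

theorem exists_inv (p q0 r : ℕ) (hp : p.Prime) (h : ¬ p ∣ q0) : ∃ t : ℕ, p ∣ q0 * t + r := by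
  have hc : Nat.Coprime q0 p := ((Nat.Prime.coprime_iff_not_dvd hp).2 h).symm
  obtain ⟨m, -, hm⟩ := Nat.exists_mul_mod_eq_one_of_coprime hc hp.one_lt
  refine ⟨m * (r * (p - 1)), ?_⟩
  have h1 : q0 * m ≡ 1 [MOD p] := by
    unfold Nat.ModEq
    rw [hm, Nat.mod_eq_of_lt hp.one_lt]
  have h2 : q0 * (m * (r * (p - 1))) + r ≡ 1 * (r * (p - 1)) + r [MOD p] := by
    have := (h1.mul_right (r * (p - 1))).add_right r
    rwa [mul_assoc] at this
  have h3 : 1 * (r * (p - 1)) + r = p * r := by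
    have := hp.one_lt
    obtain ⟨k, rfl⟩ := Nat.exists_eq_add_of_le' this.le
    simp only [Nat.add_sub_cancel]
    ring
  rw [h3] at h2
  exact (Nat.modEq_zero_iff_dvd.1 (h2.trans (Nat.modEq_zero_iff_dvd.2 (dvd_mul_right _ _))))

/-- the engine, with the small primes given by a set of residue classes -/
theorem runsG (θ : ℝ) (hθ : 0 < θ) (A : ℕ) : ∃ c C5 C6 : ℝ, 0 < c ∧ 0 < C5 ∧
    0 < C6 ∧ ∃ L₀ : ℝ, 1 ≤ L₀ ∧ ∀ L : ℝ, L₀ ≤ L →
    ∀ (P0 : Finset ℕ) (e : ℕ → ℕ) (q0 r N Y q J0 : ℕ) (u0 : ℝ),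
    (∀ p ∈ P0, p.Prime ∧ ¬ p ∣ q0 ∧ (p : ℝ) ≤ L ^ (A + 10)) → 1 ≤ q0 → 1 ≤ q → 1 ≤ J0 → Y ≤ q →
    (N : ℝ) + 1 ≤ L ^ (A + 10) →
    (((Icc 1 N).filter (fun k => ∀ p ∈ P0, ¬ k ≡ e p [MOD p])).card : ℝ) ≤ c * L →
    2 * (((q * q0).primeFactors.filter (fun p : ℕ => L ^ (A + 10) < (p : ℝ))).card : ℝ) ≤
      L ^ (A + 10) →
    C6 * Real.log L ≤ u0 → u0 ≤ L ^ (1 - θ) →
    ((∏ p ∈ P0, p : ℕ) : ℝ) * (N + 1) * Real.exp (C5 * Real.log L * (L / u0)) ≤ Y →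
    (Y : ℝ) ≤ Real.exp (L / 2) →
    ((∏ p ∈ P0, p : ℕ) : ℝ) * (N + 1) * Real.exp (L / 2) ≤ J0 → L ^ (A + 10) < Real.exp (L / 2) →
    (((Ico J0 (2 * J0)).filter (fun j => ¬ ∃ n, q * j ≤ n ∧ n < q * j + Y ∧
      ∀ k ∈ Icc 1 N, ¬ (q0 * (n + k) + r).Prime)).card : ℝ) ≤ J0 / L ^ A := by
  obtain ⟨c, C5, C6, hc, hC5, hC6, L₀, hL₀1, hL₀⟩ := engine θ hθ A
  refine ⟨c, C5, C6, hc, hC5, hC6, L₀, hL₀1, ?_⟩
  intro L hL P0 e q0 r N Y q J0 u0 hP0 hq0 hq hJ0 hYq hN hcard hEx hu1 hu2 hWY hY hWJ hLe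
  -- inverse data
  have ht : ∀ p : ℕ, ∃ t : ℕ, p.Prime → ¬ p ∣ q0 → p ∣ q0 * t + r := by
    intro p
    by_cases hp : p.Prime ∧ ¬ p ∣ q0
    · obtain ⟨t, ht⟩ := exists_inv p q0 r hp.1 hp.2
      exact ⟨t, fun _ _ => ht⟩
    · exact ⟨0, fun h1 h2 => absurd ⟨h1, h2⟩ hp⟩
  choose t ht using ht
  obtain ⟨b, hb, hbe⟩ := Pool.Agent.H256R2.SC.G3.crt_small P0 (fun p hp => (hP0 p hp).1)
    (fun p => e p + t p * (p - 1))
  have hbe' : ∀ p ∈ P0, p ∣ q0 * (b + e p) + r := by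
    intro p hp
    obtain ⟨h1, h2, -⟩ := hP0 p hp
    have h3 := hbe p hp
    have h4 := ht p h1 h2
    have h5 : q0 * (b + (e p + t p * (p - 1))) + (q0 * t p + r) =
        q0 * (b + e p) + r + p * (q0 * t p) := by
      obtain ⟨k, hk⟩ := Nat.exists_eq_add_of_le' h1.one_lt.le
      rw [hk]
      simp only [Nat.add_sub_cancel]
      ring
    have h6 : p ∣ q0 * (b + e p) + r + p * (q0 * t p) := by
      rw [← h5]
      exact dvd_add (h3.mul_left _) h4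
    exact (Nat.dvd_add_left (dvd_mul_right _ _)).1 h6
  set S := (Icc 1 N).filter (fun k => ∀ p ∈ P0, ¬ k ≡ e p [MOD p]) with hS
  have hprod1 : 1 ≤ ∏ p ∈ P0, p := Finset.prod_pos fun p hp => (hP0 p hp).1.pos
  set Ex := (q * q0).primeFactors.filter (fun p : ℕ => L ^ (A + 10) < (p : ℝ)) with hExd
  have hqq0 : q * q0 ≠ 0 := (Nat.mul_pos hq hq0).ne'
  have hmain := hL₀ L hL S (fun p => ((t p : ℕ) : ℤ)) (fun k => (k : ℕ)) Ex N
    ((∏ p ∈ P0, p) * (N + 1)) b Y q J0 u0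
    (by rw [Fintype.card_coe]; exact hcard) Subtype.val_injective
    (fun k => (mem_Icc.1 (mem_filter.1 k.2).1).2)
    (by linarith)
    (by
      calc N < N + 1 := Nat.lt_succ_self _
        _ = 1 * (N + 1) := (one_mul _).symm
        _ ≤ _ := Nat.mul_le_mul_right _ hprod1)
    (by
      calc b < ∏ p ∈ P0, p := hb
        _ = (∏ p ∈ P0, p) * 1 := (mul_one _).symm
        _ ≤ _ := Nat.mul_le_mul_left _ (by omega))
    hq hJ0 hYq
    (by
      intro p hp hlt hpE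
      have hnd : ¬ p ∣ q * q0 := by
        intro hd
        apply hpE
        rw [hExd, mem_filter, Nat.mem_primeFactors]
        exact ⟨⟨hp, hd, hqq0⟩, hlt⟩
      refine ⟨?_, fun h => hnd (h.mul_right _)⟩
      intro hdvd
      rcases (Nat.Prime.dvd_mul hp).1 hdvd with h1 | h1
      · obtain ⟨q', hq', hpq⟩ := (Prime.dvd_finsetProd_iff hp.prime _).1 h1
        have h2 : p = q' := (Nat.prime_dvd_prime_iff_eq hp (hP0 q' hq').1).1 hpq
        have h3 := (hP0 q' hq').2.2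
        rw [← h2] at h3
        linarith
      · have h2 : p ≤ N + 1 := Nat.le_of_dvd (by omega) h1
        have h3 : (p : ℝ) ≤ (N : ℝ) + 1 := by exact_mod_cast h2
        linarith)
    hEx hu1 hu2
    (by push_cast at hWY ⊢; exact hWY)
    hY
    (by push_cast at hWJ ⊢; exact hWJ)
  refine le_trans ?_ hmain
  apply Nat.cast_le.mpr
  apply card_le_card
  intro j hj
  rw [mem_filter] at hj ⊢
  refine ⟨hj.1, ?_⟩
  rintro ⟨n, hn1, hn2, hn3, hn5⟩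
  apply hj.2
  refine ⟨n, hn2, hn3, ?_⟩
  -- sizes
  have hWpos : (1 : ℝ) ≤ ((∏ p ∈ P0, p : ℕ) : ℝ) * (N + 1) := by
    have h1 : (1 : ℝ) ≤ ((∏ p ∈ P0, p : ℕ) : ℝ) := by exact_mod_cast hprod1
    have h2 : (1 : ℝ) ≤ (N : ℝ) + 1 := by linarith [(Nat.cast_nonneg N : (0 : ℝ) ≤ N)]
    nlinarith
  have hJe : Real.exp (L / 2) ≤ J0 := by
    refine le_trans ?_ hWJ
    exact le_mul_of_one_le_left (Real.exp_pos _).le hWpos
  have hnJ : J0 ≤ n := by
    calc J0 ≤ j := (mem_Ico.1 hj.1).1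
      _ = 1 * j := (one_mul _).symm
      _ ≤ q * j := Nat.mul_le_mul_right _ hq
      _ ≤ n := hn2
  have hbig : ∀ k : ℕ, Real.exp (L / 2) ≤ ((q0 * (n + k) + r : ℕ) : ℝ) := by
    intro k
    have h1 : n ≤ q0 * (n + k) + r := by
      calc n ≤ 1 * (n + k) := by omega
        _ ≤ q0 * (n + k) := Nat.mul_le_mul_right _ hq0
        _ ≤ _ := Nat.le_add_right _ _
    have h2 : (J0 : ℝ) ≤ ((q0 * (n + k) + r : ℕ) : ℝ) := by exact_mod_cast hnJ.trans h1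
    linarith
  have hLpos : 0 < L := by linarith
  have hnp : ∀ p k : ℕ, p.Prime → (p : ℝ) < Real.exp (L / 2) → p ∣ q0 * (n + k) + r →
      ¬ (q0 * (n + k) + r).Prime := by
    intro p k hp hlt hd hprime
    rcases (Nat.dvd_prime hprime).1 hd with h7 | h7
    · exact hp.one_lt.ne' h7
    · have h8 := hbig k
      rw [← h7] at h8
      linarith
  intro k hk
  by_cases hkS : k ∈ S
  · obtain ⟨p, hp, hpw, hpz, hpE, hpd⟩ := hn5 ⟨k, hkS⟩
    have hpq0 : ¬ p ∣ q0 := by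
      intro hd
      apply hpE
      rw [hExd, mem_filter, Nat.mem_primeFactors]
      exact ⟨⟨hp, hd.mul_left _, hqq0⟩, hpw⟩
    apply hnp p k hp
    · refine lt_of_le_of_lt hpz (Real.exp_lt_exp.mpr ?_)
      linarith
    · have h3 : ((p : ℕ) : ℤ) ∣ ((q0 * t p + r : ℕ) : ℤ) := by exact_mod_cast ht p hp hpq0
      have h4 : ((p : ℕ) : ℤ) ∣ ((q0 * (n + k) + r : ℕ) : ℤ) := by
        have e1 : ((q0 * (n + k) + r : ℕ) : ℤ) =
            (q0 : ℤ) * ((n : ℤ) + ((⟨k, hkS⟩ : S) : ℕ) - ((t p : ℕ) : ℤ)) +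
              ((q0 * t p + r : ℕ) : ℤ) := by
          push_cast; ring
        rw [e1]
        exact dvd_add (hpd.mul_left _) h3
      exact_mod_cast h4
  · rw [hS, mem_filter] at hkS
    push Not at hkS
    obtain ⟨p, hp, hkp⟩ := hkS hk
    obtain ⟨hpp, -, hpL⟩ := hP0 p hp
    apply hnp p k hpp (by linarith)
    have h1 : n ≡ b [MOD ((∏ p ∈ P0, p) * (N + 1))] := by
      unfold Nat.ModEq
      rw [hn1, Nat.mod_eq_of_lt]
      calc b < ∏ p ∈ P0, p := hb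
        _ = (∏ p ∈ P0, p) * 1 := (mul_one _).symm
        _ ≤ _ := Nat.mul_le_mul_left _ (by omega)
    have h2 : n ≡ b [MOD p] := h1.of_dvd ((Finset.dvd_prod_of_mem _ hp).trans (dvd_mul_right _ _))
    have h3 : q0 * (n + k) + r ≡ q0 * (b + e p) + r [MOD p] :=
      ((h2.add hkp).mul_left q0).add_right r
    exact (Nat.modEq_zero_iff_dvd.1 (h3.trans (Nat.modEq_zero_iff_dvd.2 (hbe' p hp))))

end Pool.Agent.K7.H60.SQ
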